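import Mathlib
import Pool.Agent.V1168.GH.Hodge
import Pool.Agent.W548.Odd.Herm

/-!
# Stable spaces of tensors: statements in the original coordinates

`B` is the index set of a basis of the rational homology, `D` the Hodge operator (a complex matrix
with `D * D = 1`), `L = LA {D}` the Hodge Lie algebra. `Stb L U` (from `V1168.GH.Abs`) says that `U`
is stable under `act X` for `X` in `L`.
-/

set_option linter.unusedSectionVars false

namespace Pool.Agent.N178.HW

open Finset Matrix Pool.Agent.W437.HC Pool.Agent.V1168.GH Pool.Agent.W548.Odd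
open Pool.Agent.TH131.GHC (cx HL)

noncomputable section

section defs

variable {B : Type} [Fintype B] [DecidableEq B]

/-- The matrices which kill all tensors killed by `L`. -/
def Tk (L : Submodule ℂ (Matrix B B ℂ)) : Submodule ℂ (Matrix B B ℂ) where
  carrier := {X | ∀ (m : ℕ) (c : (Fin m → B) → ℂ), (∀ Y ∈ L, act Y c = 0) → act X c = 0}
  zero_mem' := fun m c _ => act_zero_left c
  add_mem' := fun {X Y} hX hY m c hc => by rw [act_add_left, hX m c hc, hY m c hc, add_zero]
  smul_mem' := fun a X hX m c hc => by rw [act_smul_left, hX m c hc, smul_zero]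

/-- The span of the contractions of the rational Hodge tensors of degree `n + i` in the first `n`
variables. -/
def RS (D : Matrix B B ℂ) (n i : ℕ) : Submodule ℚ ((Fin i → B) → ℚ) :=
  Submodule.span ℚ {f | ∃ (τ : (Fin n ⊕ Fin i → B) → ℚ) (η : (Fin n → B) → ℚ),
    act D (cst ℂ τ) = 0 ∧ f = fun I => ∑ J, η J * τ (Sum.elim J I)}

/-- The level of a space of complex forms is at most `n`. -/
def LvC (D : Matrix B B ℂ) (n : ℕ) {κ : Type} [Fintype κ] [DecidableEq κ]
    (U : Submodule ℂ ((κ → B) → ℂ)) : Prop :=
  ∀ u ∈ U, ∀ (x : κ → B → ℂ) (ε : κ → ℤ), (∀ k, ε k = 1 ∨ ε k = -1) →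
    (∀ k, D *ᵥ x k = (ε k : ℂ) • x k) → (n : ℤ) < |∑ k, ε k| → evalF u x = 0

/-- Each nonzero stable space of forms of degree `i`, of level at most `n`, has a nonzero
equivariant map to a tensor space of degree at most `n`, of the same parity. -/
def HasMaps (D : Matrix B B ℂ) (n i : ℕ) : Prop :=
  ∀ U : Submodule ℂ ((Fin i → B) → ℂ), U ≠ ⊥ → Stb (LA {D}) U → LvC D n U →
    ∃ (κ' : Type) (_ : Fintype κ') (_ : DecidableEq κ'), Fintype.card κ' ≤ n ∧
      Even (n - Fintype.card κ') ∧ ∃ φ : ((Fin i → B) → ℂ) →ₗ[ℂ] ((κ' → B) → ℂ),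
        (∀ X ∈ LA {D}, ∀ u, φ (act X u) = act X (φ u)) ∧ ∃ u ∈ U, φ u ≠ 0

end defs

/-- Stable spaces are stable under the matrices which kill all invariant tensors. Hint: the
orthogonal projection to `U` for the Hermitian form `ip (pull (fun _ => Si) u) (pull (fun _ => Si) c)`
commutes with `act X`, `X` in `L`; so its kernel, changed to a form of degree `κ ⊕ κ` by `Om`, is
an invariant tensor. -/
def S_STB : Prop := ∀ {B : Type} [Fintype B] [DecidableEq B] {L : Submodule ℂ (Matrix B B ℂ)}
  {Om S Si : Matrix B B ℂ}, Omᵀ = -Om → Om * Om = -1 → (∀ X ∈ L, Xᵀ * Om + Om * X = 0) →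
  Si * S = 1 → (∀ X ∈ L, Si * Siᴴ * Xᴴ * (Sᴴ * S) ∈ L) →
  ∀ {κ : Type} [Fintype κ] [DecidableEq κ] (U : Submodule ℂ ((κ → B) → ℂ)),
  Stb L U → Stb (Tk L) U

/-- Rational Hodge substructures of level at most `n` are spanned by contractions of Hodge tensors.
Hint: let `Q` be the complex span of the images of all equivariant maps from the tensors of degree
`n` to those of degree `i`. If `cx V` is not in `Q` then the orthogonal complement `U` of `Q` in
`cx V + Q` (for the Hermitian form of `Herm`) is stable, not zero, of level at most `n`; the adjoint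
of the map given by `HasMaps`, composed with the multiplication by a power of the invariant
bilinear form `Om` (an isometric embedding up to a factor), has its image in `Q`, a contradiction.
Each equivariant map of tensors is a complex combination of contractions with rational Hodge
tensors. -/
def S_RAT : Prop := ∀ {B : Type} [Fintype B] [DecidableEq B] {D Om S Si : Matrix B B ℂ},
  Herm {D} Om S Si → ∀ n i : ℕ, HasMaps D n i →
  ∀ V : Submodule ℚ ((Fin i → B) → ℚ), HL D (n : ℤ) V → V ≤ RS D n i

end

end Pool.Agent.N178.HW
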