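import Mathlib
import Pool.Agent.R915.H2
import Pool.Agent.W546.GHC.Defs
import Pool.Agent.N178.HW.StmB
import Pool.Agent.Y4.K.Div2

/-!
# Abelian varieties: definitions and statements

Abelian varieties `AV`, homomorphisms `IsHom` are those of `Pool.Agent.Y90.Defs`, the classes of
simple abelian varieties and the classes `Alg` (which are algebraic) those of `Pool.Agent.R915.Stm`.
-/

set_option linter.unusedSectionVars false

namespace Pool.Agent.N178.HW

open Finset Matrix Module Pool.Agent.W437.HC Pool.Agent.W437.HD Pool.Agent.Y90 Pool.Agent.R915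
open Pool.Agent.H204R3.CM (IsHodge)
open Pool.Agent.W546.GHC (IsHodgeSubstructure LevelLE)
open Pool.Agent.Y4.K (Pol Pr Reps Dat)

noncomputable section

/-- The product of two abelian varieties. -/
def prodAV (X Y : AV) : AV where
  H := X.H × Y.H
  T := X.T × Y.T
  per := (X.per.comp (AddMonoidHom.fst _ _)).prod (Y.per.comp (AddMonoidHom.snd _ _))
  span := by
    rw [eq_top_iff]
    rintro ⟨u, v⟩ _
    have h1 : ∀ u : X.T, ((u, 0) : X.T × Y.T) ∈ Submodule.span ℝ (Set.range
        ((X.per.comp (AddMonoidHom.fst _ _)).prod (Y.per.comp (AddMonoidHom.snd _ _)))) := by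
      intro u
      have hu : u ∈ Submodule.span ℝ (Set.range X.per) := X.span ▸ Submodule.mem_top
      induction hu using Submodule.span_induction with
      | mem u hu =>
        obtain ⟨w, rfl⟩ := hu
        refine Submodule.subset_span ⟨(w, 0), ?_⟩
        change (X.per w, Y.per 0) = _
        rw [map_zero]
      | zero => exact Submodule.zero_mem _
      | add a b _ _ ha hb =>
        have h2 := Submodule.add_mem _ ha hb
        rw [Prod.mk_add_mk, add_zero] at h2
        exact h2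
      | smul r a _ ha =>
        have h2 := Submodule.smul_mem _ r ha
        rw [Prod.smul_mk, smul_zero] at h2
        exact h2
    have h2 : ∀ v : Y.T, ((0, v) : X.T × Y.T) ∈ Submodule.span ℝ (Set.range
        ((X.per.comp (AddMonoidHom.fst _ _)).prod (Y.per.comp (AddMonoidHom.snd _ _)))) := by
      intro v
      have hv : v ∈ Submodule.span ℝ (Set.range Y.per) := Y.span ▸ Submodule.mem_top
      induction hv using Submodule.span_induction with
      | mem v hv =>
        obtain ⟨w, rfl⟩ := hv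
        refine Submodule.subset_span ⟨(0, w), ?_⟩
        change (X.per 0, Y.per w) = _
        rw [map_zero]
      | zero => exact Submodule.zero_mem _
      | add a b _ _ ha hb =>
        have h2 := Submodule.add_mem _ ha hb
        rw [Prod.mk_add_mk, add_zero] at h2
        exact h2
      | smul r a _ ha =>
        have h2 := Submodule.smul_mem _ r ha
        rw [Prod.smul_mk, smul_zero] at h2
        exact h2
    have h3 := Submodule.add_mem _ (h1 u) (h2 v)
    rw [Prod.mk_add_mk, add_zero, zero_add] at h3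
    exact h3
  rank := by
    rw [Module.finrank_prod, Module.finrank_prod, X.rank, Y.rank]
    ring
  pol := by
    obtain ⟨E, Ψ, h1, h2, h3, h4⟩ := X.pol
    obtain ⟨F, Θ, k1, k2, k3, k4⟩ := Y.pol
    refine ⟨fun v w => E v.1 w.1 + F v.2 w.2, fun u u' => Ψ u.1 u'.1 + Θ u.2 u'.2,
      fun u' => ⟨fun x y => ?_, fun c x => ?_⟩, fun u u' => ?_, fun u hu => ?_, fun v w => ?_⟩
    · have e1 := (h1 u'.1).map_add x.1 y.1
      have e2 := (k1 u'.2).map_add x.2 y.2
      change Ψ (x.1 + y.1) u'.1 + Θ (x.2 + y.2) u'.2 = _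
      rw [e1, e2]
      ring
    · have e1 := (h1 u'.1).map_smul c x.1
      have e2 := (k1 u'.2).map_smul c x.2
      change Ψ (c • x.1) u'.1 + Θ (c • x.2) u'.2 = _
      rw [e1, e2, ← smul_add]
    · change Ψ u'.1 u.1 + Θ u'.2 u.2 = (starRingEnd ℂ) (Ψ u.1 u'.1 + Θ u.2 u'.2)
      rw [h2 u.1 u'.1, k2 u.2 u'.2, map_add]
    · have e1 : ∀ x : X.T, 0 ≤ (Ψ x x).re := by
        intro x
        by_cases hx : x = 0
        · have h5 := (h1 x).map_smul 0 x
          rw [zero_smul, zero_smul] at h5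
          rw [hx] at h5 ⊢
          rw [h5, Complex.zero_re]
        · exact (h3 x hx).le
      have e2 : ∀ x : Y.T, 0 ≤ (Θ x x).re := by
        intro x
        by_cases hx : x = 0
        · have h5 := (k1 x).map_smul 0 x
          rw [zero_smul, zero_smul] at h5
          rw [hx] at h5 ⊢
          rw [h5, Complex.zero_re]
        · exact (k3 x hx).le
      change 0 < (Ψ u.1 u.1 + Θ u.2 u.2).re
      rw [Complex.add_re]
      by_cases h5 : u.1 = 0
      · have h6 : u.2 ≠ 0 := fun h6 => hu (Prod.ext h5 h6)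
        exact add_pos_of_nonneg_of_pos (e1 _) (k3 _ h6)
      · exact add_pos_of_pos_of_nonneg (h3 _ h5) (e2 _)
    · change (Ψ (X.per v.1) (X.per w.1) + Θ (Y.per v.2) (Y.per w.2)).im = _
      rw [Complex.add_im, h4, k4]
      push_cast
      rfl

/-- The elliptic curve with complex multiplication by `ℚ(√-d)`. -/
def EK (d : ℚ) (hd : 0 < d) : AV :=
  AVZ (pmE (M := 1) (d := fun _ => d) (l := fun _ => 1) (fun _ => hd) fun _ => one_pos)

/-- The simple abelian varieties of the theorem. -/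
structure Nice (d : ℚ) (Y : AV) : Prop where
  /-- complex multiplication occurs only for elliptic curves -/
  cm : HasCMult Y → finrank ℚ Y.H = 2
  /-- the type -/
  ty : finrank ℚ Y.H ≤ 6 ∨ QuadMult Y ∨ RealMult Y ∨ FiveDim Y ∨ FullHodge Y
  /-- if `√-δ` acts on `Y` then the multiplicities of its two eigenvalues on the tangent space are
  equal, or differ by one and `√-δ` is a rational multiple of `√-d` -/
  bal : ∀ (δ : ℚ) (h : Y.H →ₗ[ℚ] Y.H) (Ψ : Y.T →ₗ[ℂ] Y.T) (s : ℂ), 0 < δ →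
    (∀ v, Ψ (Y.per v) = Y.per (h v)) → (∀ w, h (h w) = -(δ • w)) → s * s = -(δ : ℂ) →
    finrank ℂ (LinearMap.ker (Ψ - s • LinearMap.id)) =
        finrank ℂ (LinearMap.ker (Ψ + s • LinearMap.id)) ∨
      (∃ r : ℚ, δ = d * r ^ 2) ∧ finrank ℂ (LinearMap.ker (Ψ - s • LinearMap.id)) ≤
        finrank ℂ (LinearMap.ker (Ψ + s • LinearMap.id)) + 1

/-- All simple factors are as in `Nice`. -/
def Good (d : ℚ) (X : AV) : Prop := ∀ Y, IsFactor Y X → Nice d Y

/-- The span of the classes of degree `i` on `X` given by an `Alg` class `τ` of degree `n + i` on a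
product `P = Y × X` and elements of `H_n(Y, ℚ)`. -/
def Corr (X : AV) (n i : ℕ) : Submodule ℚ (X.H [⋀^Fin i]→ₗ[ℚ] ℚ) :=
  Submodule.span ℚ {f | ∃ (Y P : AV) (a : Y.H →ₗ[ℚ] P.H) (b : X.H →ₗ[ℚ] P.H)
    (τ : P.H [⋀^Fin n ⊕ Fin i]→ₗ[ℚ] ℚ) (y : Fin n → Y.H), IsHom Y P a ∧ IsHom X P b ∧
    Function.Bijective (fun w : Y.H × X.H => a w.1 + b w.2) ∧ Alg P (Fin n ⊕ Fin i) τ ∧
    ∀ x : Fin i → X.H, f x = τ (Sum.elim (fun k => a (y k)) fun l => b (x l))}

/-- Isogeny factors. -/
def S_GSUB : Prop := ∀ (d : ℚ) (X Y : AV) (f : X.H →ₗ[ℚ] Y.H), IsHom X Y f →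
  Function.Injective f → Good d Y → Good d X

/-- Products. Hint: if `Y` is simple and `g : Y → X₁ × X₂` is injective then one of the two
components is not zero, so it is injective (its kernel is an abelian subvariety `IsSub`). -/
def S_GPROD : Prop := ∀ (d : ℚ) (X₁ X₂ : AV), Good d X₁ → Good d X₂ → Good d (prodAV X₁ X₂)

/-- The elliptic curve. -/
def S_GELL : Prop := ∀ (d : ℚ) (hd : 0 < d), Good d (EK d hd)

/-- Hodge classes are in `Alg`. Hint: `Pool.Agent.R915.blocks_all` (in `Pool.Agent.R915.H2`), with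
`C` the abelian variety of CM type with one factor `(ℚ(√-d), Φ)`, and one block of the type
`.small`. -/
def S_ALG : Prop := ∀ (d : ℚ), 0 < d → ∀ X : AV, Good d X → algSys.AllHodge X

/-- The local conditions and the traces of the complex structure on the irreducible submodules.
Hint: the first part as in `blocks_all`; for the others use `loc2`, the structures `KX`, `CX`, `LC`
(and `line_of_comm`), `exists_fac`, and `KW.unbalanced` / `pd_sig` in the other direction: if
`tr Z U ≠ 0` then `U` is in the eigenspace of `φ` with `φ ^ 2 = -δ`, `δ = d * r ^ 2`, and the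
conjugate `cjS σ U` in the eigenspace of the eigenvalue `σ √-δ = ± √-δ`, where the sign depends only
on `σ` and `d`. -/
def S_LOC : Prop := ∀ {g : ℕ} {Z : Matrix (Fin g) (Fin g) ℂ} (h : PM Z) (d : ℚ), 0 < d →
  Good d (AVZ h) → LCF' Z ∧
    (∀ U, IrS (Pool.Agent.Y90.LZ Z) U → tr Z U = -1 ∨ tr Z U = 0 ∨ tr Z U = 1) ∧
    ∀ σ : ℂ ≃+* ℂ, ∃ s : ℤ, ∀ U, IrS (Pool.Agent.Y90.LZ Z) U → tr Z (cjS σ U) = s * tr Z U

/-- The line attached to the elliptic curve. -/
def S_LINE : Prop := ∀ {g : ℕ} {Z : Matrix (Fin g) (Fin g) ℂ} (h : PM Z) (d : ℚ) (hd : 0 < d)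
  (f : (EK d hd).H →ₗ[ℚ] (AVZ h).H), IsHom (EK d hd) (AVZ h) f → Function.Injective f →
  ∃ U, IrS (Pool.Agent.Y90.LZ Z) U ∧ finrank ℂ U = 1

/-- Rational Hodge tensors give Hodge classes on products. Hint: `T` is the alternation of the
pull-back of `τ` under the projections to the factors `some k`, `k : Fin n`, and `none` (`i`
times). -/
def S_MULT : Prop := ∀ {g : ℕ} {Z : Matrix (Fin g) (Fin g) ℂ} (h : PM Z) (n i : ℕ)
  (τ : (Fin n ⊕ Fin i → Fin g ⊕ Fin g) → ℚ), act (DZ Z) (cst ℂ τ) = 0 →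
  ∃ T : (AVQ (fun _ : Option (Fin n) => h)).H [⋀^Fin n ⊕ Fin i]→ₗ[ℚ] ℚ,
    IsHodge (AVQ (fun _ : Option (Fin n) => h)).per T ∧
    ∀ (y : Fin n → Fin g ⊕ Fin g → ℚ) (x : Fin i → Fin g ⊕ Fin g → ℚ),
      T (Sum.elim (fun k => inF (fun _ => g) (some k) (y k)) fun l => inF (fun _ => g) none (x l)) =
        ∑ σ : Equiv.Perm (Fin i), ((Equiv.Perm.sign σ : ℤ) : ℚ) *
          evalF τ (Sum.elim y fun l => x (σ l))

/-- The matrices which commute with the commutant, preserve the symplectic form and whose traces on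
the irreducible submodules are proportional to those of the complex structure kill all invariant
tensors. Hint: `Pool.Agent.R915.forms_mem'` (as in `Pool.Agent.R915.inv_memC`) for the system of the
forms killed by `N`; use `bal_sum` with `τ = RingEquiv.refl ℂ`; tensors of odd degree killed by
`DZ Z` vanish. -/
def S_TK : Prop := ∀ {g : ℕ} {Z : Matrix (Fin g) (Fin g) ℂ}, PM Z → LCF' Z →
  ∀ (N : Matrix (Fin g ⊕ Fin g) (Fin g ⊕ Fin g) ℂ) (lam : ℂ),
  (∀ c, Pool.Agent.Y4.H.Ct Z c → N * c = c * N) → Nᵀ * Om g ℂ + Om g ℂ * N = 0 →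
  (∀ W, IrS (Pool.Agent.Y90.LZ Z) W → ∀ hN : ∀ u ∈ W, mulVecLin N u ∈ W,
    LinearMap.trace ℂ W ((mulVecLin N).restrict hN) = lam * tr Z W) →
  N ∈ Tk (Pool.Agent.Y90.LZ Z)

/-- The duality of the primitive idempotents. Hint: `Pool.Agent.Y4.K.Pol.exists_dat` with the
symmetry `br a = a` (`sym_of`) proved as follows: otherwise the form `Om x (a y)` on the irreducible
module `U` is symmetric; if `dim U ≥ 2` then `Rk1 Z U` (from `loc2`) gives `N ∈ LZ Z` of rank one on
`U`, so that `Om (N x) (a x) = 0` for all `x ∈ U` is the product of two linear forms; lines are not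
selfdual (`rz_line`). -/
def S_DAT : Prop := ∀ {g : ℕ} {Z : Matrix (Fin g) (Fin g) ℂ} (_ : PM Z) (M : Pol Z), LCF' Z →
  ∀ {P : Type} [Fintype P] {ρ : P → Pr Z}, Reps ρ → ∃ b u w, Dat M ρ b u w

/-- The theorem. -/
def S_MAIN : Prop := ∀ (d : ℚ), 0 < d → ∀ X : AV, Good d X → ∀ (n j : ℕ)
  (V : Submodule ℚ (X.H [⋀^Fin (n + 2 * j)]→ₗ[ℚ] ℚ)), IsHodgeSubstructure X.per V →
  LevelLE X.per V n → V ≤ Corr X n (n + 2 * j)

/-- The statement for the period matrices. -/
def S_MAPS : Prop := ∀ {g : ℕ} {Z : Matrix (Fin g) (Fin g) ℂ} (h : PM Z) (d : ℚ) (hd : 0 < d)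
  (f : (EK d hd).H →ₗ[ℚ] (AVZ h).H), IsHom (EK d hd) (AVZ h) f → Function.Injective f →
  Good d (AVZ h) → ∀ n j : ℕ, HasMaps (DZ Z) n (n + 2 * j)

/-- `S_RAT` for nonempty `B`. -/
def S_RATN : Prop := ∀ {B : Type} [Fintype B] [DecidableEq B] [Nonempty B] {D Om S Si : Matrix B B ℂ},
  Pool.Agent.W548.Odd.Herm {D} Om S Si → ∀ n i : ℕ, HasMaps D n i →
  ∀ V : Submodule ℚ ((Fin i → B) → ℚ), Pool.Agent.TH131.GHC.HL D (n : ℤ) V → V ≤ RS D n i

/-- The assembly. Hint: `exists_ppav` for `prodAV X (EK d hd)` gives `Z` and homomorphisms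
`ι : X → AVZ h`, `π : AVZ h → X` with `π ∘ ι = id`; a `Pool.Agent.TH131.GHC.Frame X.per (JR Z) Unit`
is given by `ι`, `π`; `Frame.HL_map`, `Frame.expand` reduce to `RS (DZ Z) n i`; alternate, and use
`S_MULT` and `S_ALG` for the product of `AVQ (fun _ : Fin n => h)` and `X` (pull back from
`AVQ (fun _ : Option (Fin n) => h)`). -/
def S_ASM : Prop := S_GSUB → S_GPROD → S_GELL → S_ALG → S_MULT → S_RATN → S_MAPS → S_MAIN

end

end Pool.Agent.N178.HW
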