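import Mathlib
import Pool.Agent.W437.HC.Act
import Pool.Agent.V1168.GH.Key

/-!
# Highest weights in tensor spaces: definitions and statements

`R` is the index set of a basis of a complex vector space `W`, divided into classes (`cls : R → P`),
with a duality `inv : R → R` which maps the class `p` onto the class `b p`, signs `jj` (so that
`⟨e_x, e_y⟩ = jj x` if `y = inv x` and zero otherwise is a symplectic form) and a set `X` of half of
the basis vectors (`Fr`, from the starting library `V1168.GH.Key`).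

The forms of degree `κ` are the functions `(κ → R) → ℂ` (the values on the basis vectors); matrices
act on them as derivations by `act` (`Pool.Agent.W437.HC.act`):
`act Y f z = ∑ k, ∑ j, Y j (z k) * f (Function.update z k j)`. So `act Y` maps the delta function at
`J` to `∑ k, ∑ y, Y (J k) y • δ (update J k y)`, and
`act A (act B c) - act B (act A c) = act (B * A - A * B) c` (`act_comm`).

`GR cls inv jj T` is the Lie algebra of the matrices which preserve the classes and the symplectic
form and whose vector of traces on the classes is in `T`.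
-/

set_option linter.unusedSectionVars false

namespace Pool.Agent.N178.HW

open Finset Matrix Pool.Agent.W437.HC Pool.Agent.V1168.GH

noncomputable section

section defs

variable {κ R P : Type} [Fintype κ] [DecidableEq κ] [Fintype R] [DecidableEq R] [DecidableEq P]

/-- The Lie algebra. -/
def GR (cls : R → P) (inv : R → R) (jj : R → ℂ) (T : Submodule ℂ (P → ℂ)) :
    Submodule ℂ (Matrix R R ℂ) where
  carrier := {Y | (∀ x y, cls x ≠ cls y → Y x y = 0) ∧
    (∀ x y, Y (inv y) (inv x) = -(jj x * jj y * Y x y)) ∧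
    (fun p => ∑ x ∈ univ.filter (fun x => cls x = p), Y x x) ∈ T}
  zero_mem' := by
    refine ⟨fun x y _ => rfl, fun x y => by simp, ?_⟩
    have h : (fun p => ∑ x ∈ univ.filter (fun x => cls x = p), (0 : Matrix R R ℂ) x x) = 0 := by
      funext p
      exact sum_eq_zero fun x _ => rfl
    rw [h]
    exact T.zero_mem
  add_mem' := by
    rintro A B ⟨h1, h2, h3⟩ ⟨k1, k2, k3⟩
    refine ⟨fun x y h => by rw [Matrix.add_apply, h1 x y h, k1 x y h, add_zero],
      fun x y => by rw [Matrix.add_apply, Matrix.add_apply, h2, k2]; ring, ?_⟩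
    have h := T.add_mem h3 k3
    have h' : (fun p => ∑ x ∈ univ.filter (fun x => cls x = p), (A + B) x x) =
        (fun p => ∑ x ∈ univ.filter (fun x => cls x = p), A x x) +
        (fun p => ∑ x ∈ univ.filter (fun x => cls x = p), B x x) := by
      funext p
      exact sum_add_distrib
    rw [h']
    exact h
  smul_mem' := by
    rintro c A ⟨h1, h2, h3⟩
    refine ⟨fun x y h => by rw [Matrix.smul_apply, h1 x y h, smul_zero],
      fun x y => by rw [Matrix.smul_apply, Matrix.smul_apply, h2, smul_eq_mul, smul_eq_mul]; ring,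
      ?_⟩
    have h := T.smul_mem c h3
    have h' : (fun p => ∑ x ∈ univ.filter (fun x => cls x = p), (c • A) x x) =
        c • (fun p => ∑ x ∈ univ.filter (fun x => cls x = p), A x x) := by
      funext p
      rw [Pi.smul_apply, smul_eq_mul, mul_sum]
      exact sum_congr rfl fun x _ => rfl
    rw [h']
    exact h

/-- The elementary matrices: `act (EE inv jj x y)` replaces the value `x` of a slot by `y` (and the
value `inv y` by `inv x`, with a sign). For `cls x = cls y`, `x ≠ y` it is in `GR`. -/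
def EE (inv : R → R) (jj : R → ℂ) (x y : R) : Matrix R R ℂ :=
  Matrix.single x y 1 - (jj x * jj y) • Matrix.single (inv y) (inv x) 1

/-- A height function: odd, injective on the classes, larger on `X`, with sum zero on each class. -/
structure Hgt (cls : R → P) (inv : R → R) (X : R → Prop) (h : R → ℤ) : Prop where
  odd : ∀ x, h (inv x) = -h x
  inj : ∀ x y, cls x = cls y → h x = h y → x = y
  top : ∀ x y, cls x = cls y → X x → ¬ X y → h y < h x
  sum : ∀ p, ∑ x ∈ univ.filter (fun x => cls x = p), h x = 0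

/-- The diagonal elements of `GR`. -/
def Dg (cls : R → P) (inv : R → R) (T : Submodule ℂ (P → ℂ)) (d : R → ℂ) : Prop :=
  (∀ x, d (inv x) = -d x) ∧ (fun p => ∑ x ∈ univ.filter (fun x => cls x = p), d x) ∈ T

/-- The weight of the delta function at `z`: `act (diagonal d) δ_z = wt d z • δ_z`. -/
def wt (d : R → ℂ) (z : κ → R) : ℂ := ∑ k, d (z k)

/-- The weight of `z` as an odd function: `2 * wt d z = ∑ x, cnt z x * d x` for odd `d`. -/
def cnt (inv : R → R) (z : κ → R) (x : R) : ℤ :=
  ((univ.filter fun k => z k = x).card : ℤ) - (univ.filter fun k => z k = inv x).card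

/-- `v` is killed by the raising operators and has the weight `c`. -/
structure HV (cls : R → P) (inv : R → R) (jj : R → ℂ) (T : Submodule ℂ (P → ℂ)) (h : R → ℤ)
    (v : (κ → R) → ℂ) (c : R → ℤ) : Prop where
  odd : ∀ x, c (inv x) = -c x
  kill : ∀ x y, cls x = cls y → h x < h y → act (EE inv jj x y) v = 0
  wts : ∀ z, v z ≠ 0 → ∀ d, Dg cls inv T d → 2 * wt d z = ∑ x, (c x : ℂ) * d x

/-- The space is stable under `GR`. -/
def StG (cls : R → P) (inv : R → R) (jj : R → ℂ) (T : Submodule ℂ (P → ℂ))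
    (U : Submodule ℂ ((κ → R) → ℂ)) : Prop :=
  ∀ Y ∈ GR cls inv jj T, ∀ u ∈ U, act Y u ∈ U

end defs

/-- Height functions exist. Hint: take distinct `i x : ℕ`, `3 ^ i x - 3 ^ i (inv x)` plus or minus a
large number according to `X x`; multiply by the size of the class and subtract the sum over the
class. -/
def S_HGT : Prop := ∀ {R P : Type} [Fintype R] [DecidableEq R] [DecidableEq P] {cls : R → P}
  {b : P → P} {inv : R → R} {jj : R → ℂ} {X : R → Prop},
  Fr cls b inv jj X → ∃ h, Hgt cls inv X h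

/-- Each nonzero stable space contains a nonzero vector killed by the raising operators with a
weight. -/
def S_VEC : Prop := ∀ {κ R P : Type} [Fintype κ] [DecidableEq κ] [Fintype R] [DecidableEq R]
  [DecidableEq P] {cls : R → P} {b : P → P} {inv : R → R} {jj : R → ℂ} {X : R → Prop} {h : R → ℤ}
  {T : Submodule ℂ (P → ℂ)}, Fr cls b inv jj X → Hgt cls inv X h →
  ∀ U : Submodule ℂ ((κ → R) → ℂ), StG cls inv jj T U → U ≠ ⊥ →
  ∃ v ∈ U, v ≠ 0 ∧ ∃ z₀ : κ → R, v z₀ ≠ 0 ∧ HV cls inv jj T h v (cnt inv z₀)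

/-- Weights are dominant. -/
def S_DOM : Prop := ∀ {κ R P : Type} [Fintype κ] [DecidableEq κ] [Fintype R] [DecidableEq R]
  [DecidableEq P] {cls : R → P} {b : P → P} {inv : R → R} {jj : R → ℂ} {X : R → Prop} {h : R → ℤ}
  {T : Submodule ℂ (P → ℂ)}, Fr cls b inv jj X → Hgt cls inv X h →
  ∀ (v : (κ → R) → ℂ) (c : R → ℤ), HV cls inv jj T h v c → v ≠ 0 →
  ∀ x y, cls x = cls y → h x < h y → c x ≤ c y

/-- The weights of a stable space are permuted by the involutions `τ` which preserve the classes and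
commute with the duality. -/
def S_SWAP : Prop := ∀ {κ R P : Type} [Fintype κ] [DecidableEq κ] [Fintype R] [DecidableEq R]
  [DecidableEq P] {cls : R → P} {b : P → P} {inv : R → R} {jj : R → ℂ} {X : R → Prop} {h : R → ℤ}
  {T : Submodule ℂ (P → ℂ)}, Fr cls b inv jj X → Hgt cls inv X h →
  ∀ U : Submodule ℂ ((κ → R) → ℂ), StG cls inv jj T U →
  ∀ v ∈ U, v ≠ 0 → ∀ c : R → ℤ, HV cls inv jj T h v c →
  ∀ τ : R → R, (∀ x, τ (τ x) = x) → (∀ x, τ (inv x) = inv (τ x)) → (∀ x, cls (τ x) = cls x) →
  ∃ u ∈ U, u ≠ 0 ∧ ∀ z, u z ≠ 0 → ∀ d, Dg cls inv T d →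
    2 * wt d z = ∑ x, (c (τ x) : ℂ) * d x

/-- Each dominant odd function is the weight of a vector, killed by the raising operators, in a
tensor space of the smallest possible degree. -/
def S_TOP : Prop := ∀ {R P : Type} [Fintype R] [DecidableEq R] [DecidableEq P] {cls : R → P}
  {b : P → P} {inv : R → R} {jj : R → ℂ} {X : R → Prop} {h : R → ℤ},
  Fr cls b inv jj X → Hgt cls inv X h →
  ∀ c : R → ℤ, (∀ x, c (inv x) = -c x) → (∀ x y, cls x = cls y → h x < h y → c x ≤ c y) →
  ∃ (κ' : Type) (_ : Fintype κ') (_ : DecidableEq κ') (w : (κ' → R) → ℂ),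
    Fintype.card κ' = ∑ x, (c x).toNat ∧ w ≠ 0 ∧
    ∀ T : Submodule ℂ (P → ℂ), HV cls inv jj T h w c

/-- Two vectors killed by the raising operators, with the same weight for the diagonal elements of
`GR`, correspond to each other under an equivariant map. -/
def S_GRAPH : Prop := ∀ {κ κ' R P : Type} [Fintype κ] [DecidableEq κ] [Fintype κ'] [DecidableEq κ']
  [Fintype R] [DecidableEq R] [DecidableEq P] {cls : R → P} {b : P → P} {inv : R → R} {jj : R → ℂ}
  {X : R → Prop} {h : R → ℤ} {T : Submodule ℂ (P → ℂ)}, Fr cls b inv jj X → Hgt cls inv X h →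
  (∀ t ∈ T, (fun p => (starRingEnd ℂ) (t p)) ∈ T) →
  ∀ (v : (κ → R) → ℂ) (w : (κ' → R) → ℂ) (c c' : R → ℤ), HV cls inv jj T h v c →
  HV cls inv jj T h w c' → v ≠ 0 → w ≠ 0 →
  (∀ d, Dg cls inv T d → ∑ x, (c x : ℂ) * d x = ∑ x, (c' x : ℂ) * d x) →
  ∃ φ : ((κ → R) → ℂ) →ₗ[ℂ] ((κ' → R) → ℂ),
    (∀ Y ∈ GR cls inv jj T, ∀ u, φ (act Y u) = act Y (φ u)) ∧ φ v = w

/-- The shift of the weight by a vector orthogonal to the traces, to minimise the degree. The
numbers `e p` are the differences of the multiplicities of `X` in the classes `p` and `b p`. -/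
def S_SHIFT : Prop := ∀ {R P : Type} [Fintype R] [DecidableEq R] [Fintype P] [DecidableEq P]
  {cls : R → P} {b : P → P} {inv : R → R} {jj : R → ℂ} {X : R → Prop} [DecidablePred X] {h : R → ℤ},
  Fr cls b inv jj X → Hgt cls inv X h → (∀ p, b (b p) = p) →
  ∀ e : P → ℤ, (∀ p, e p = (XS cls X p).card - (XS cls X (b p)).card) →
  (∀ p, e p = -1 ∨ e p = 0 ∨ e p = 1) →
  ((∃ p, e p ≠ 0) → ∃ q, e q ≠ 0 ∧ (univ.filter fun x => cls x = q).card = 1) →
  ∀ c : R → ℤ, (∀ x, c (inv x) = -c x) → (∀ x y, cls x = cls y → h x < h y → c x ≤ c y) →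
  ∀ n : ℕ, (∀ τ : R → R, (∀ x, τ (τ x) = x) → (∀ x, τ (inv x) = inv (τ x)) →
    (∀ x, cls (τ x) = cls x) → |∑ x ∈ univ.filter (fun x => X x), c (τ x)| ≤ n) →
  ∃ a : P → ℤ, (∀ p, a (b p) = -a p) ∧ ∑ p, a p * e p = 0 ∧
    ∑ x, (c x + a (cls x)).toNat ≤ n

end

end Pool.Agent.N178.HW
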