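import Mathlib
import Pool.Agent.V1168.GH.Pull

/-!
# Rectangular substitutions in the slots
-/

set_option linter.unusedSectionVars false

namespace Pool.Agent.N178.HW

open Finset Matrix Pool.Agent.W437.HC Pool.Agent.V1168.GH Pool.Agent.H204R3.SP

noncomputable section

variable {B C E : Type} [Fintype B] [DecidableEq B] [Fintype C] [DecidableEq C] [Fintype E]
  [DecidableEq E] {κ : Type} [Fintype κ] [DecidableEq κ]

/-- The substitution of linear maps in the slots. -/
def pl (A : κ → Matrix B C ℂ) : ((κ → B) → ℂ) →ₗ[ℂ] ((κ → C) → ℂ) where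
  toFun c := fun I => evalF c (fun k => A k *ᵥ Pi.single (I k) 1)
  map_add' c d := by
    funext I
    exact evalF_add c d _
  map_smul' a c := by
    funext I
    exact evalF_smul a c _

theorem pl_apply (A : κ → Matrix B C ℂ) (c : (κ → B) → ℂ) (I : κ → C) :
    pl A c I = evalF c (fun k => A k *ᵥ Pi.single (I k) 1) := rfl

theorem evalF_pl (A : κ → Matrix B C ℂ) (c : (κ → B) → ℂ) (x : κ → C → ℂ) :
    evalF (pl A c) x = evalF c (fun k => A k *ᵥ x k) := by
  have h1 : (fun k => A k *ᵥ x k) = fun k => ∑ i, x k i • (A k *ᵥ (Pi.single i 1 : C → ℂ)) := by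
    funext k
    have h2 : x k = ∑ i, x k i • (Pi.single i 1 : C → ℂ) := by
      funext i
      rw [Finset.sum_apply]
      simp only [Pi.smul_apply, Pi.single_apply, smul_eq_mul, mul_ite, mul_one, mul_zero]
      rw [sum_ite_eq, if_pos (mem_univ _)]
    nth_rewrite 1 [h2]
    rw [Matrix.mulVec_sum]
    exact sum_congr rfl fun i _ => by rw [mulVec_smul]
  rw [h1, ← evalM_apply c, MultilinearMap.map_sum]
  nth_rewrite 1 [evalF]
  refine sum_congr rfl fun I _ => ?_
  rw [MultilinearMap.map_smul_univ, evalM_apply, smul_eq_mul, mul_comm]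
  rfl

theorem mulVec_update' (A : κ → Matrix B C ℂ) (x : κ → C → ℂ) (k : κ) (v : C → ℂ) :
    (fun m => A m *ᵥ Function.update x k v m) =
      Function.update (fun m => A m *ᵥ x m) k (A k *ᵥ v) := by
  funext m
  by_cases h : m = k
  · subst h
    rw [Function.update_self, Function.update_self]
  · rw [Function.update_of_ne h, Function.update_of_ne h]

theorem pl_pl (A : κ → Matrix B C ℂ) (A' : κ → Matrix C E ℂ) (c : (κ → B) → ℂ) :
    pl A' (pl A c) = pl (fun k => A k * A' k) c := by
  refine ext_evalF fun x => ?_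
  rw [evalF_pl, evalF_pl, evalF_pl]
  simp only [mulVec_mulVec]

theorem pl_one (c : (κ → B) → ℂ) : pl (fun _ => (1 : Matrix B B ℂ)) c = c := by
  refine ext_evalF fun x => ?_
  rw [evalF_pl]
  simp only [one_mulVec]

/-- The substitution intertwines the actions. -/
theorem act_pl {A : κ → Matrix B C ℂ} {X : Matrix B B ℂ} {Y : Matrix C C ℂ}
    (h : ∀ k, A k * Y = X * A k) (c : (κ → B) → ℂ) : act Y (pl A c) = pl A (act X c) := by
  refine ext_evalF fun x => ?_
  rw [evalF_act, evalF_pl, evalF_act]
  refine sum_congr rfl fun l _ => ?_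
  rw [evalF_pl, mulVec_update', mulVec_mulVec, h, ← mulVec_mulVec]

/-- A form is determined by its substitutions. -/
theorem exists_pl_ne {I : Type} [Fintype I] {α : I → Matrix B C ℂ} {β : I → Matrix C B ℂ}
    (h : ∑ i, α i * β i = 1) {c : (κ → B) → ℂ} (hc : c ≠ 0) :
    ∃ t : κ → I, pl (fun k => α (t k)) c ≠ 0 := by
  classical
  by_contra hcon
  push Not at hcon
  apply hc
  refine ext_evalF fun x => ?_
  have h1 : x = fun k => ∑ i, (α i * β i) *ᵥ x k := by
    funext k
    rw [← Matrix.sum_mulVec, h, one_mulVec]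
  rw [h1, ← evalM_apply c, MultilinearMap.map_sum]
  have h2 : ∀ t : κ → I, evalM c (fun k => (α (t k) * β (t k)) *ᵥ x k) = 0 := by
    intro t
    rw [evalM_apply]
    have h3 := evalF_pl (fun k => α (t k)) c (fun k => β (t k) *ᵥ x k)
    rw [hcon t] at h3
    simp only [mulVec_mulVec] at h3
    rw [← h3]
    exact evalF_zero_left _
  rw [sum_eq_zero fun t _ => h2 t, evalF_zero_left]

end

end Pool.Agent.N178.HW
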