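import Mathlib
import Pool.Agent.N178.HW.StmC
import Pool.Agent.N830.HC.A3

/-!
# Factors of abelian subvarieties and products; the elliptic curve
-/

set_option linter.unusedSectionVars false

namespace Pool.Agent.N178.HW

open Finset Matrix Module Pool.Agent.W437.HC Pool.Agent.W437.HD Pool.Agent.Y90 Pool.Agent.R915
open Pool.Agent.N830.HC (inj_of_simple)

noncomputable section

theorem hom_comp {X Y W : AV} {f : X.H →ₗ[ℚ] Y.H} {g : Y.H →ₗ[ℚ] W.H} (hf : IsHom X Y f)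
    (hg : IsHom Y W g) : IsHom X W (g.comp f) := by
  obtain ⟨Ψ, hΨ⟩ := hf
  obtain ⟨Φ, hΦ⟩ := hg
  refine ⟨Φ.comp Ψ, fun v => ?_⟩
  rw [LinearMap.comp_apply, LinearMap.comp_apply, hΨ, hΦ]

theorem factor_sub {X Y W : AV} {f : X.H →ₗ[ℚ] Y.H} (hf : IsHom X Y f)
    (hi : Function.Injective f) (hW : IsFactor W X) : IsFactor W Y := by
  obtain ⟨hs, i, h1, h2⟩ := hW
  exact ⟨hs, f.comp i, hom_comp h1 hf, hi.comp h2⟩

theorem hom_fst (X Y : AV) : IsHom (prodAV X Y) X (LinearMap.fst ℚ X.H Y.H) :=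
  ⟨LinearMap.fst ℂ X.T Y.T, fun _ => rfl⟩

theorem hom_snd (X Y : AV) : IsHom (prodAV X Y) Y (LinearMap.snd ℚ X.H Y.H) :=
  ⟨LinearMap.snd ℂ X.T Y.T, fun _ => rfl⟩

theorem hom_inl (X Y : AV) : IsHom X (prodAV X Y) (LinearMap.inl ℚ X.H Y.H) :=
  ⟨LinearMap.inl ℂ X.T Y.T, fun v => by
    change ((X.per v, 0) : X.T × Y.T) = (X.per v, Y.per 0)
    rw [map_zero]⟩

theorem hom_inr (X Y : AV) : IsHom Y (prodAV X Y) (LinearMap.inr ℚ X.H Y.H) :=
  ⟨LinearMap.inr ℂ X.T Y.T, fun v => by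
    change ((0, Y.per v) : X.T × Y.T) = (X.per 0, Y.per v)
    rw [map_zero]⟩

/-- Factors of a product. -/
theorem factor_prod {X Y W : AV} (hW : IsFactor W (prodAV X Y)) : IsFactor W X ∨ IsFactor W Y := by
  obtain ⟨hs, i, h1, h2⟩ := hW
  let p : (prodAV X Y).H →ₗ[ℚ] X.H := LinearMap.fst ℚ X.H Y.H
  let q : (prodAV X Y).H →ₗ[ℚ] Y.H := LinearMap.snd ℚ X.H Y.H
  by_cases hp : p.comp i = 0
  · by_cases hq : q.comp i = 0
    · exfalso
      obtain ⟨⟨y, hy⟩, -⟩ := id hs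
      apply hy
      apply h2
      have e1 : p (i y) = 0 := LinearMap.congr_fun hp y
      have e2 : q (i y) = 0 := LinearMap.congr_fun hq y
      rw [map_zero]
      exact Prod.ext e1 e2
    · exact Or.inr ⟨hs, q.comp i, hom_comp h1 (hom_snd X Y),
        inj_of_simple hs (hom_comp h1 (hom_snd X Y)) hq⟩
  · exact Or.inl ⟨hs, p.comp i, hom_comp h1 (hom_fst X Y),
      inj_of_simple hs (hom_comp h1 (hom_fst X Y)) hp⟩

theorem t_GSUB : S_GSUB := fun _ _ _ _ hf hi hG _ hW => hG _ (factor_sub hf hi hW)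

theorem t_GPROD : S_GPROD := fun _ _ _ h1 h2 _ hW =>
  (factor_prod hW).elim (fun h => h1 _ h) fun h => h2 _ h

/-- Endomorphisms of a one dimensional vector space are scalars. -/
theorem exists_scalar {T : Type} [AddCommGroup T] [Module ℂ T] (h1 : finrank ℂ T = 1)
    (Ψ : T →ₗ[ℂ] T) : ∃ c : ℂ, ∀ t, Ψ t = c • t := by
  obtain ⟨v, hv0, hv⟩ := finrank_eq_one_iff'.1 h1
  obtain ⟨c, hc⟩ := hv (Ψ v)
  refine ⟨c, fun t => ?_⟩
  obtain ⟨a, rfl⟩ := hv t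
  rw [map_smul, ← hc, smul_comm]

theorem per_smul (Y : AV) (q : ℚ) (v : Y.H) : Y.per (q • v) = (q : ℂ) • Y.per v := by
  have h := map_ratCast_smul Y.per ℚ ℂ q v
  rwa [Rat.cast_id] at h

theorem t_GELL : S_GELL := by
  intro d hd Y hY
  obtain ⟨hs, i, hi, hinj⟩ := hY
  have hpm : PM (ZE (M := 1) (fun _ => d) (fun _ => 1)) := pmE (fun _ => hd) fun _ => one_pos
  have hrE : finrank ℚ (EK d hd).H = 2 := by
    change finrank ℚ (Fin 1 ⊕ Fin 1 → ℚ) = 2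
    rw [finrank_fintype_fun_eq_card, Fintype.card_sum, Fintype.card_fin]
  have hle : finrank ℚ Y.H ≤ 2 := by
    rw [← hrE]
    exact LinearMap.finrank_le_finrank_of_injective hinj
  have hpos : 0 < finrank ℚ Y.H := by
    obtain ⟨⟨y, hy⟩, -⟩ := id hs
    have : Nontrivial Y.H := ⟨⟨y, 0, hy⟩⟩
    exact Module.finrank_pos
  have hrk := Y.rank
  have hYH : finrank ℚ Y.H = 2 := by omega
  have hYT : finrank ℂ Y.T = 1 := by omega
  refine ⟨fun _ => hYH, Or.inl (by omega), ?_⟩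
  intro δ h Ψ s hδ hΨ hsq hss
  -- the scalar
  obtain ⟨c, hc⟩ := exists_scalar hYT Ψ
  obtain ⟨t₀, ht₀⟩ : ∃ t : Y.T, t ≠ 0 := by
    have : Nontrivial Y.T := Module.nontrivial_of_finrank_pos (R := ℂ) (by omega)
    exact exists_ne 0
  have hbi : Function.Bijective i :=
    ⟨hinj, (LinearMap.injective_iff_surjective_of_finrank_eq_finrank (by rw [hYH, hrE])).1 hinj⟩
  let A : Y.H ≃ₗ[ℚ] (EK d hd).H := LinearEquiv.ofBijective i hbi
  obtain ⟨Ψi, hΨi⟩ := hi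
  obtain ⟨P, I, hP1, hP2, hI1, hI2⟩ := hpm.cht.ex
  obtain ⟨-, h0, Ψ0, s0, e1, e2, e3, -⟩ := unbE hd
  have hTE : finrank ℂ (AVZ hpm).T = 1 := by
    change finrank ℂ (Fin 1 → ℂ) = 1
    rw [finrank_fintype_fun_eq_card, Fintype.card_fin]
  obtain ⟨c0, hc0⟩ := exists_scalar hTE Ψ0
  -- a nonzero vector
  obtain ⟨⟨y, hy⟩, -⟩ := id hs
  have hiy : i y ≠ 0 := fun h => hy (hinj (by rw [h, map_zero]))
  have hper : ∀ w : (Fin 1 ⊕ Fin 1 → ℚ), perOne (ZE (M := 1) (fun _ => d) (fun _ => 1)) w = 0 →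
      w = 0 := by
    intro w hw
    rw [← hP1] at hw
    have h5 := congrArg I hw
    rw [hI1, map_zero] at h5
    funext k
    have h6 := congrFun h5 k
    have h7 : ((w k : ℚ) : ℝ) = 0 := h6
    exact_mod_cast h7
  have hpy : Y.per y ≠ 0 := by
    intro h
    have h2 := hΨi y
    rw [h, map_zero] at h2
    exact hiy (hper _ h2.symm)
  have hc2 : c * c = -(δ : ℂ) := by
    have h2 := hΨ (h y)
    rw [hsq, ← hΨ, hc, hc, smul_smul] at h2
    have h3 : Y.per (-(δ • y)) = (-(δ : ℂ)) • Y.per y := by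
      rw [map_neg, neg_smul, per_smul]
    rw [h3] at h2
    exact smul_left_injective ℂ hpy h2
  have hc02 : c0 * c0 = -(d : ℂ) := by
    obtain ⟨w, hw⟩ : ∃ w : (AVZ hpm).H, (AVZ hpm).per w ≠ 0 := ⟨i y, fun h => hiy (hper _ h)⟩
    have h2 := e1 (h0 w)
    rw [e2, ← e1, hc0, hc0, smul_smul] at h2
    have h3 : (AVZ hpm).per (-(d • w)) = (-(d : ℂ)) • (AVZ hpm).per w := by
      rw [map_neg, neg_smul, per_smul]
    rw [h3] at h2
    exact smul_left_injective ℂ hw h2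
  -- the quotient of the scalars is real
  have hc00 : c0 ≠ 0 := by
    rintro rfl
    rw [zero_mul] at hc02
    have : (d : ℂ) = 0 := by linear_combination hc02
    exact hd.ne' (by exact_mod_cast this)
  obtain ⟨ρ, hρ⟩ : ∃ ρ : ℝ, c = (ρ : ℂ) * c0 := by
    have h2 : (c / c0) ^ 2 = (((δ / d : ℚ) : ℝ) : ℂ) := by
      rw [div_pow, sq, sq, hc2, hc02, neg_div_neg_eq]
      push_cast
      rfl
    have hnn : (0 : ℝ) ≤ ((δ / d : ℚ) : ℝ) := by exact_mod_cast (div_pos hδ hd).le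
    have h3 : (c / c0) ^ 2 = ((Real.sqrt ((δ / d : ℚ) : ℝ) : ℝ) : ℂ) ^ 2 := by
      rw [h2, ← Complex.ofReal_pow, Real.sq_sqrt hnn]
    rcases sq_eq_sq_iff_eq_or_eq_neg.1 h3 with h4 | h4
    · exact ⟨_, by rw [← h4, div_mul_cancel₀ _ hc00]⟩
    · refine ⟨-Real.sqrt ((δ / d : ℚ) : ℝ), ?_⟩
      rw [Complex.ofReal_neg, ← h4, div_mul_cancel₀ _ hc00]
  -- it is rational
  obtain ⟨w, hw⟩ : ∃ w : (Fin 1 ⊕ Fin 1 → ℚ), w = h0 (i y) := ⟨_, rfl⟩
  obtain ⟨w', hw'⟩ : ∃ w' : (Fin 1 ⊕ Fin 1 → ℚ), w' = i (h y) := ⟨_, rfl⟩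
  have hww : (fun k => ((w' k : ℚ) : ℝ)) = ρ • fun k => ((w k : ℚ) : ℝ) := by
    have h2 : P (fun k => ((w' k : ℚ) : ℝ)) = P (ρ • fun k => ((w k : ℚ) : ℝ)) := by
      rw [map_smul, hP1, hP1, hw, hw']
      have h3 := hΨi (h y)
      rw [← hΨ, hc, map_smul, hΨi] at h3
      have h4 := e1 (i y)
      rw [hc0] at h4
      have h5 : perOne (ZE (M := 1) (fun _ => d) (fun _ => 1)) (i (h y)) = (EK d hd).per (i (h y)) := rfl
      have h6 : perOne (ZE (M := 1) (fun _ => d) (fun _ => 1)) (h0 (i y)) = (AVZ hpm).per (h0 (i y)) :=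
        rfl
      rw [h5, h6, ← h3, ← h4, hρ, mul_smul]
      rfl
    have h3 := congrArg I h2
    rwa [hI1, hI1] at h3
  have hw0 : w ≠ 0 := by
    intro h
    have h2 := e2 (i y)
    have h3 : h0 (i y) = 0 := by rw [← hw]; exact h
    rw [h3, map_zero] at h2
    have h4 : d • i y = 0 := by
      rw [eq_comm, neg_eq_zero] at h2
      exact h2
    rcases smul_eq_zero.1 h4 with h5 | h5
    · exact hd.ne' h5
    · exact hiy h5
  obtain ⟨k, hk⟩ := Function.ne_iff.1 hw0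
  have hk' : w k ≠ 0 := hk
  have hρ2 : ρ = ((w' k / w k : ℚ) : ℝ) := by
    have h2 := congrFun hww k
    have h3 : ((w' k : ℚ) : ℝ) = ρ * ((w k : ℚ) : ℝ) := h2
    have h4 : ((w k : ℚ) : ℝ) ≠ 0 := by exact_mod_cast hk'
    push_cast
    rw [h3, mul_div_cancel_right₀ _ h4]
  have hδd : δ = d * (w' k / w k) ^ 2 := by
    have h2 : (δ : ℂ) = (d : ℂ) * ((w' k / w k : ℚ) : ℂ) ^ 2 := by
      have h3 : c * c = (ρ : ℂ) ^ 2 * (c0 * c0) := by rw [hρ]; ring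
      rw [hc2, hc02, hρ2] at h3
      push_cast at h3 ⊢
      linear_combination -h3
    exact_mod_cast h2
  right
  refine ⟨⟨_, hδd⟩, ?_⟩
  have h9 := Submodule.finrank_le (LinearMap.ker (Ψ - s • (LinearMap.id : Y.T →ₗ[ℂ] Y.T)))
  omega

end

end Pool.Agent.N178.HW
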