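import Mathlib
import Pool.Agent.N178.HW.Defs

/-!
# Highest weights in tensor spaces: the main statement in the coordinates of a frame
-/

set_option linter.unusedSectionVars false

namespace Pool.Agent.N178.HW

open Finset Matrix Pool.Agent.W437.HC Pool.Agent.V1168.GH

noncomputable section

section

variable {κ R P : Type} [Fintype κ] [DecidableEq κ] [Fintype R] [DecidableEq R] [Fintype P]
  [DecidableEq P] {cls : R → P} {b : P → P} {inv : R → R} {jj : R → ℂ} {X : R → Prop}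
  [DecidablePred X]

/-- The sign function of `X`. -/
def sX (X : R → Prop) [DecidablePred X] (x : R) : ℤ := if X x then 1 else -1

/-- The line spanned by an integral vector. -/
def Tl (e : P → ℤ) : Submodule ℂ (P → ℂ) := Submodule.span ℂ {fun p => (e p : ℂ)}

theorem mem_Tl {e : P → ℤ} {t : P → ℂ} : t ∈ Tl e ↔ ∃ a : ℂ, t = fun p => a * (e p : ℂ) := by
  unfold Tl
  rw [Submodule.mem_span_singleton]
  constructor
  · rintro ⟨a, rfl⟩
    exact ⟨a, rfl⟩
  · rintro ⟨a, rfl⟩
    exact ⟨a, rfl⟩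

theorem Tl_conj {e : P → ℤ} : ∀ t ∈ Tl e, (fun p => (starRingEnd ℂ) (t p)) ∈ Tl e := by
  intro t ht
  obtain ⟨a, rfl⟩ := mem_Tl.1 ht
  refine mem_Tl.2 ⟨(starRingEnd ℂ) a, ?_⟩
  funext p
  rw [map_mul, map_intCast]

/-- Sums over the classes. -/
theorem sum_cls (F : R → ℂ) : ∑ x, F x = ∑ p : P, ∑ x ∈ univ.filter (fun x => cls x = p), F x := by
  rw [← Finset.sum_fiberwise_of_maps_to (s := univ) (t := univ) (g := cls) (fun x _ => mem_univ _)]

theorem card_nX (hF : Fr cls b inv jj X) (hbb : ∀ p, b (b p) = p) (p : P) :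
    (univ.filter fun x => cls x = p ∧ ¬ X x).card = (XS cls X (b p)).card := by
  refine Finset.card_bij (fun x _ => inv x) ?_ ?_ ?_
  · intro x hx
    rw [mem_filter] at hx
    rw [mem_XS, hF.ci, hx.2.1]
    exact ⟨(hF.Xi x).2 hx.2.2, rfl⟩
  · intro x _ y _ h
    rw [← hF.ii x, h, hF.ii]
  · intro y hy
    rw [mem_XS] at hy
    refine ⟨inv y, ?_, hF.ii y⟩
    rw [mem_filter, hF.ci, hy.2, hbb]
    exact ⟨mem_univ _, rfl, fun h => (hF.Xi y).1 h hy.1⟩

/-- The sum of the signs over a class. -/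
theorem sum_sX (hF : Fr cls b inv jj X) (hbb : ∀ p, b (b p) = p) (p : P) :
    ∑ x ∈ univ.filter (fun x => cls x = p), sX X x =
      ((XS cls X p).card : ℤ) - (XS cls X (b p)).card := by
  rw [← card_nX hF hbb p]
  have h1 : ∀ x, sX X x = (if X x then (1 : ℤ) else 0) - (if X x then 0 else 1) := by
    intro x
    unfold sX
    split_ifs <;> rfl
  simp only [h1, sum_sub_distrib]
  congr 1
  · rw [← sum_filter, filter_filter, sum_const, nsmul_eq_mul, mul_one]
    congr 2
    ext x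
    rw [mem_XS, mem_filter]
    exact ⟨fun h => ⟨h.2.2, h.2.1⟩, fun h => ⟨mem_univ _, h.2, h.1⟩⟩
  · have h2 : ∀ x, (if X x then (0 : ℤ) else 1) = if ¬ X x then 1 else 0 := by
      intro x
      by_cases h : X x <;> simp [h]
    simp only [h2]
    rw [← sum_filter, filter_filter, sum_const, nsmul_eq_mul, mul_one]

theorem Dg_sX (hF : Fr cls b inv jj X) (hbb : ∀ p, b (b p) = p) {e : P → ℤ}
    (he : ∀ p, e p = (XS cls X p).card - (XS cls X (b p)).card) :
    Dg cls inv (Tl e) (fun x => (sX X x : ℂ)) := by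
  refine ⟨fun x => ?_, mem_Tl.2 ⟨1, ?_⟩⟩
  · beta_reduce
    unfold sX
    by_cases h : X x
    · rw [if_pos h, if_neg (fun h' => (hF.Xi x).1 h' h)]
      norm_num
    · rw [if_neg h, if_pos ((hF.Xi x).2 h)]
      norm_num
  · funext p
    rw [one_mul, he, ← sum_sX hF hbb p]
    push_cast
    rfl

/-- **The main statement in the coordinates of a frame.** -/
theorem core (hH : S_HGT) (hV : S_VEC) (hDm : S_DOM) (hS : S_SWAP) (hT : S_TOP) (hG : S_GRAPH)
    (hSh : S_SHIFT) (hF : Fr cls b inv jj X) (hbb : ∀ p, b (b p) = p) (e : P → ℤ)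
    (he : ∀ p, e p = (XS cls X p).card - (XS cls X (b p)).card)
    (he1 : ∀ p, e p = -1 ∨ e p = 0 ∨ e p = 1)
    (hq : (∃ p, e p ≠ 0) → ∃ q, e q ≠ 0 ∧ (univ.filter fun x => cls x = q).card = 1)
    (U : Submodule ℂ ((κ → R) → ℂ)) (hU : StG cls inv jj (Tl e) U) (hU0 : U ≠ ⊥) (n : ℕ)
    (hlev : ∀ u ∈ U, ∀ z, u z ≠ 0 → |∑ k, sX X (z k)| ≤ n) :
    ∃ (κ' : Type) (_ : Fintype κ') (_ : DecidableEq κ'), Fintype.card κ' ≤ n ∧
      ∃ φ : ((κ → R) → ℂ) →ₗ[ℂ] ((κ' → R) → ℂ),
        (∀ Y ∈ GR cls inv jj (Tl e), ∀ u, φ (act Y u) = act Y (φ u)) ∧ ∃ u ∈ U, φ u ≠ 0 := by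
  obtain ⟨h, hh⟩ := hH hF
  obtain ⟨v, hvU, hv0, z₀, hz₀, hHV⟩ := hV (T := Tl e) hF hh U hU hU0
  obtain ⟨c, hc⟩ : ∃ c, c = cnt inv z₀ := ⟨_, rfl⟩
  rw [← hc] at hHV
  have hdom := hDm hF hh v c hHV hv0
  have hlv : ∀ τ : R → R, (∀ x, τ (τ x) = x) → (∀ x, τ (inv x) = inv (τ x)) →
      (∀ x, cls (τ x) = cls x) → |∑ x ∈ univ.filter (fun x => X x), c (τ x)| ≤ n := by
    intro τ h1 h2 h3
    obtain ⟨u, hu, hu0, hw⟩ := hS hF hh U hU v hvU hv0 c hHV τ h1 h2 h3
    obtain ⟨z, hz⟩ := Function.ne_iff.1 hu0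
    have h4 := hw z hz _ (Dg_sX hF hbb he)
    have h5 : ∑ x, (c (τ x) : ℂ) * (sX X x : ℂ) =
        2 * ((∑ x ∈ univ.filter (fun x => X x), c (τ x) : ℤ) : ℂ) := by
      have h6 : ∑ x, c (τ x) * sX X x = 2 * ∑ x ∈ univ.filter (fun x => X x), c (τ x) := by
        have h7 : ∀ x, c (τ x) * sX X x = (if X x then c (τ x) else 0) +
            (if X (inv x) then c (τ (inv x)) else 0) := by
          intro x
          unfold sX
          by_cases hX : X x
          · rw [if_pos hX, if_pos hX, if_neg (fun h' => (hF.Xi x).1 h' hX)]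
            ring
          · rw [if_neg hX, if_neg hX, if_pos ((hF.Xi x).2 hX), h2, hHV.odd]
            ring
        rw [sum_congr rfl fun x _ => h7 x, sum_add_distrib, two_mul]
        have h8 : ∑ x, (if X (inv x) then c (τ (inv x)) else 0) =
            ∑ x, (if X x then c (τ x) else 0) := by
          let E : R ≃ R := ⟨inv, inv, hF.ii, hF.ii⟩
          exact E.sum_comp (fun x => if X x then c (τ x) else 0)
        rw [h8, ← sum_filter]
      rw [← Int.cast_two, ← Int.cast_mul, ← h6]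
      push_cast
      rfl
    rw [h5] at h4
    have h6 : wt (fun x => (sX X x : ℂ)) z = ((∑ k, sX X (z k) : ℤ) : ℂ) := by
      unfold wt
      push_cast
      rfl
    rw [h6] at h4
    have h7 : (∑ k, sX X (z k) : ℤ) = ∑ x ∈ univ.filter (fun x => X x), c (τ x) := by
      have h8 := mul_left_cancel₀ two_ne_zero h4
      exact_mod_cast h8
    rw [← h7]
    exact hlev u hu z hz
  obtain ⟨a, ha1, ha2, ha3⟩ := hSh hF hh hbb e he he1 hq c hHV.odd hdom n hlv
  obtain ⟨c', hc'⟩ : ∃ c' : R → ℤ, c' = fun x => c x + a (cls x) := ⟨_, rfl⟩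
  have hodd' : ∀ x, c' (inv x) = -c' x := by
    intro x
    rw [hc']
    change c (inv x) + a (cls (inv x)) = -(c x + a (cls x))
    rw [hHV.odd, hF.ci, ha1]
    ring
  have hdom' : ∀ x y, cls x = cls y → h x < h y → c' x ≤ c' y := by
    intro x y h1 h2
    rw [hc']
    change c x + a (cls x) ≤ c y + a (cls y)
    rw [h1]
    have h3 := hdom x y h1 h2
    omega
  obtain ⟨κ', i1, i2, w, hcard, hw0, hw⟩ := hT hF hh c' hodd' hdom'
  refine ⟨κ', i1, i2, ?_, ?_⟩
  · rw [hcard]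
    have h1 : ((∑ x, (c' x).toNat : ℕ) : ℤ) ≤ n := by
      rw [hc']
      exact_mod_cast ha3
    exact_mod_cast h1
  · obtain ⟨φ, hφ, hφv⟩ := hG hF hh Tl_conj v w c c' hHV (hw _) hv0 hw0 (by
      rintro d ⟨-, hd2⟩
      obtain ⟨lam, hlam⟩ := mem_Tl.1 hd2
      have h1 : ∑ x, (c' x : ℂ) * d x = ∑ x, (c x : ℂ) * d x + ∑ x, (a (cls x) : ℂ) * d x := by
        rw [← sum_add_distrib]
        refine sum_congr rfl fun x _ => ?_
        rw [hc']
        push_cast
        ring
      have h2 : ∑ x, (a (cls x) : ℂ) * d x = 0 := by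
        rw [sum_cls (cls := cls) (P := P)]
        have h3 : ∀ p : P, ∑ x ∈ univ.filter (fun x => cls x = p), (a (cls x) : ℂ) * d x =
            lam * ((a p * e p : ℤ) : ℂ) := by
          intro p
          have h4 : ∑ x ∈ univ.filter (fun x => cls x = p), (a (cls x) : ℂ) * d x =
              (a p : ℂ) * ∑ x ∈ univ.filter (fun x => cls x = p), d x := by
            rw [mul_sum]
            refine sum_congr rfl fun x hx => ?_
            rw [(mem_filter.1 hx).2]
          have h5 := congrFun hlam p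
          rw [h4]
          beta_reduce at h5
          rw [h5]
          push_cast
          ring
        rw [sum_congr rfl fun p _ => h3 p, ← mul_sum, ← Int.cast_sum, ha2, Int.cast_zero, mul_zero]
      rw [h1, h2, add_zero])
    exact ⟨φ, hφ, v, hvU, by rw [hφv]; exact hw0⟩

end

end

end Pool.Agent.N178.HW
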