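import Mathlib
import Pool.Agent.N178.HW.StmC
import Pool.Agent.Y4.K.Glob

/-!
# Primitive idempotents and irreducible submodules
-/

set_option linter.unusedSectionVars false

namespace Pool.Agent.N178.HW

open Finset Matrix Module Pool.Agent.W437.HC Pool.Agent.W437.HD Pool.Agent.R915
open Pool.Agent.Y90 hiding mu
open Pool.Agent.Y4.K (Pol Pr Reps Dat mu pr qr Eqv Iso)
open Pool.Agent.Y4.H (Ct)

noncomputable section

variable {g : ℕ} {Z : Matrix (Fin g) (Fin g) ℂ}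

theorem LZ_eq : Pool.Agent.Y4.H.LZ Z = Pool.Agent.Y90.LZ Z := by
  unfold Pool.Agent.Y4.H.LZ Pool.Agent.Y90.LZ
  rw [Set.image_singleton]

theorem mem_LZ' {X : Matrix (Fin g ⊕ Fin g) (Fin g ⊕ Fin g) ℂ} (hX : X ∈ Pool.Agent.Y90.LZ Z) :
    X ∈ Pool.Agent.Y4.H.LZ Z := by
  rw [LZ_eq]
  exact hX

theorem ct_iff {c : Matrix (Fin g ⊕ Fin g) (Fin g ⊕ Fin g) ℂ} :
    Ct Z c ↔ ∀ X ∈ Pool.Agent.Y90.LZ Z, c * X = X * c := by
  rw [← LZ_eq]
  rfl

/-- The image of a primitive idempotent. -/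
def rg (φ : Pr Z) : Submodule ℂ (Fin g ⊕ Fin g → ℂ) := LinearMap.range (mulVecLin φ.e)

theorem mem_rg {φ : Pr Z} {v : Fin g ⊕ Fin g → ℂ} : v ∈ rg φ ↔ φ.e *ᵥ v = v := by
  constructor
  · rintro ⟨w, rfl⟩
    rw [mulVecLin_apply, mulVec_mulVec, φ.idem]
  · intro h
    exact ⟨v, h⟩

theorem e_mem_rg (φ : Pr Z) (v : Fin g ⊕ Fin g → ℂ) : φ.e *ᵥ v ∈ rg φ := ⟨v, rfl⟩

theorem comm_mem {φ : Pr Z} {N : Matrix (Fin g ⊕ Fin g) (Fin g ⊕ Fin g) ℂ}
    (h : N * φ.e = φ.e * N) {v : Fin g ⊕ Fin g → ℂ} (hv : v ∈ rg φ) : N *ᵥ v ∈ rg φ := by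
  rw [mem_rg] at hv ⊢
  rw [mulVec_mulVec, ← h, ← mulVec_mulVec, hv]

theorem stab_rg (φ : Pr Z) : Stab (Pool.Agent.Y90.LZ Z) (rg φ) := fun X hX _ hv =>
  comm_mem (φ.mem X (mem_LZ' hX)).symm hv

/-- The image of a primitive idempotent is irreducible. -/
theorem irr_rg (h : PM Z) (φ : Pr Z) : IrS (Pool.Agent.Y90.LZ Z) (rg φ) := by
  refine ⟨fun h0 => φ.ne ?_, stab_rg φ, fun W hW hs => ?_⟩
  · have h1 : ∀ v, φ.e *ᵥ v = 0 := fun v => by
      have h2 := e_mem_rg φ v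
      rw [h0, Submodule.mem_bot] at h2
      exact h2
    ext i j
    have h2 := congrFun (h1 (Pi.single j 1)) i
    rw [mulVec_single_one] at h2
    exact h2
  · obtain ⟨π, h1, h2, h3⟩ := h.cred W hs
    have hc : Ct Z (LinearMap.toMatrix' π) := by
      rw [ct_iff]
      intro X hX
      apply Matrix.toLin'.injective
      rw [Matrix.toLin'_mul, Matrix.toLin'_mul, Matrix.toLin'_toMatrix']
      refine LinearMap.ext fun v => ?_
      rw [LinearMap.comp_apply, LinearMap.comp_apply, Matrix.toLin'_apply, Matrix.toLin'_apply,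
        h1 X hX]
    obtain ⟨lam, hlam⟩ := φ.prim _ hc
    have h4 : ∀ v ∈ rg φ, π v = lam • v := by
      intro v hv
      have h5 := congrArg (fun Y => Y *ᵥ v) hlam
      beta_reduce at h5
      rw [← mulVec_mulVec, ← mulVec_mulVec, mem_rg.1 hv, smul_mulVec, mem_rg.1 hv] at h5
      have h6 : LinearMap.toMatrix' π *ᵥ v = π v := by
        rw [← Matrix.toLin'_apply, Matrix.toLin'_toMatrix']
      rw [h6, mem_rg.1 (hW (h2 v))] at h5
      exact h5
    by_cases h0 : W = ⊥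
    · exact Or.inl h0
    · right
      obtain ⟨w, hw, hw0⟩ := Submodule.exists_mem_ne_zero_of_ne_bot h0
      have h5 := h4 w (hW hw)
      rw [h3 w hw] at h5
      have h6 : lam = 1 := by
        have h7 : (lam - 1) • w = 0 := by rw [sub_smul, ← h5, one_smul, sub_self]
        exact sub_eq_zero.1 ((smul_eq_zero.1 h7).resolve_right hw0)
      refine le_antisymm hW fun v hv => ?_
      have h7 := h4 v hv
      rw [h6, one_smul] at h7
      rw [← h7]
      exact h2 v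

/-- Irreducible submodules are images of primitive idempotents. -/
theorem pr_of_irr (h : PM Z) {W : Submodule ℂ (Fin g ⊕ Fin g → ℂ)}
    (hW : IrS (Pool.Agent.Y90.LZ Z) W) : ∃ φ : Pr Z, rg φ = W := by
  obtain ⟨π, h1, h2, h3⟩ := h.cred W hW.2.1
  have he : ∀ v, LinearMap.toMatrix' π *ᵥ v = π v := fun v => by
    rw [← Matrix.toLin'_apply, Matrix.toLin'_toMatrix']
  have hc : Ct Z (LinearMap.toMatrix' π) := by
    rw [ct_iff]
    intro X hX
    apply Matrix.toLin'.injective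
    rw [Matrix.toLin'_mul, Matrix.toLin'_mul, Matrix.toLin'_toMatrix']
    refine LinearMap.ext fun v => ?_
    rw [LinearMap.comp_apply, LinearMap.comp_apply, Matrix.toLin'_apply, Matrix.toLin'_apply,
      h1 X hX]
  have hi : LinearMap.toMatrix' π * LinearMap.toMatrix' π = LinearMap.toMatrix' π := by
    apply Matrix.toLin'.injective
    rw [Matrix.toLin'_mul, Matrix.toLin'_toMatrix']
    refine LinearMap.ext fun v => ?_
    rw [LinearMap.comp_apply, h3 _ (h2 v)]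
  refine ⟨⟨LinearMap.toMatrix' π, hc, hi, fun h0 => ?_, fun c hcc => ?_⟩, ?_⟩
  · obtain ⟨w, hw, hw0⟩ := Submodule.exists_mem_ne_zero_of_ne_bot hW.1
    apply hw0
    rw [← h3 w hw, ← he, h0, zero_mulVec]
  · -- Schur's lemma
    have hcX := ct_iff.1 hcc
    let T : Module.End ℂ W :=
      (π.comp ((mulVecLin c).comp W.subtype)).codRestrict W fun v => h2 _
    have hT : ∀ w : W, ((T w : W) : Fin g ⊕ Fin g → ℂ) = π (c *ᵥ (w : Fin g ⊕ Fin g → ℂ)) :=
      fun w => rfl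
    have : Nontrivial W := Submodule.nontrivial_iff_ne_bot.2 hW.1
    obtain ⟨lam, hlam⟩ := Module.End.exists_eigenvalue T
    obtain ⟨w, hw⟩ := hlam.exists_hasEigenvector
    refine ⟨lam, ?_⟩
    let K : Submodule ℂ (Fin g ⊕ Fin g → ℂ) :=
      { carrier := {v | v ∈ W ∧ π (c *ᵥ v) = lam • v}
        zero_mem' := ⟨W.zero_mem, by rw [mulVec_zero, map_zero, smul_zero]⟩
        add_mem' := fun {a b} ha hb => ⟨W.add_mem ha.1 hb.1, by
          rw [mulVec_add, map_add, ha.2, hb.2, smul_add]⟩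
        smul_mem' := fun r a ha => ⟨W.smul_mem r ha.1, by
          rw [mulVec_smul, map_smul, ha.2, smul_comm]⟩ }
    have hK : Stab (Pool.Agent.Y90.LZ Z) K := by
      rintro X hX v ⟨hv, hv'⟩
      refine ⟨hW.2.1 X hX v hv, ?_⟩
      rw [mulVec_mulVec, hcX X hX, ← mulVec_mulVec, h1 X hX, hv', mulVec_smul]
    have hwK : (w : Fin g ⊕ Fin g → ℂ) ∈ K := by
      refine ⟨w.2, ?_⟩
      rw [← hT, hw.apply_eq_smul]
      rfl
    have hKW : K = W := by
      rcases hW.2.2 K (fun v hv => hv.1) hK with h4 | h4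
      · exfalso
        rw [h4, Submodule.mem_bot] at hwK
        exact hw.2 (Subtype.ext hwK)
      · exact h4
    apply Matrix.toLin'.injective
    rw [Matrix.toLin'_mul, Matrix.toLin'_mul, map_smul, Matrix.toLin'_toMatrix']
    refine LinearMap.ext fun v => ?_
    rw [LinearMap.comp_apply, LinearMap.comp_apply, LinearMap.smul_apply, Matrix.toLin'_apply]
    have h4 : π v ∈ K := by
      rw [hKW]
      exact h2 v
    exact h4.2
  · apply le_antisymm
    · rintro _ ⟨v, rfl⟩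
      rw [mulVecLin_apply]
      change LinearMap.toMatrix' π *ᵥ v ∈ W
      rw [he]
      exact h2 v
    · intro w hw
      rw [mem_rg]
      change LinearMap.toMatrix' π *ᵥ w = w
      rw [he, h3 w hw]

/-- The trace on the image. -/
theorem trace_rg {φ : Pr Z} {N : Matrix (Fin g ⊕ Fin g) (Fin g ⊕ Fin g) ℂ}
    (hN : ∀ u ∈ rg φ, mulVecLin N u ∈ rg φ) :
    LinearMap.trace ℂ (rg φ) ((mulVecLin N).restrict hN) = trace (N * φ.e) := by
  have h1 : ∀ x, mulVecLin (N * φ.e) x ∈ rg φ := by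
    intro x
    rw [mulVecLin_apply, ← mulVec_mulVec]
    exact hN _ (e_mem_rg φ x)
  have h2 := LinearMap.trace_restrict_eq_of_forall_mem (rg φ) (mulVecLin (N * φ.e)) h1
  have h3 : LinearMap.trace ℂ (Fin g ⊕ Fin g → ℂ) (mulVecLin (N * φ.e)) = trace (N * φ.e) :=
    Matrix.trace_toLin'_eq (N * φ.e)
  rw [← h3, ← h2]
  congr 1
  refine LinearMap.ext fun v => Subtype.ext ?_
  change N *ᵥ (v : Fin g ⊕ Fin g → ℂ) = (N * φ.e) *ᵥ (v : Fin g ⊕ Fin g → ℂ)
  rw [← mulVec_mulVec, mem_rg.1 v.2]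

theorem rg_pr (M : Pol Z) (φ : Pr Z) : LinearMap.range (mulVecLin (pr φ)) = rg φ ⊓ eig Z 1 := by
  have hD : DZ Z * DZ Z = 1 := M.D_sq
  have hc : DZ Z * φ.e = φ.e * DZ Z := (φ.mem _ Pool.Agent.Y4.H.D_mem_LZ).symm
  apply le_antisymm
  · rintro _ ⟨v, rfl⟩
    rw [mulVecLin_apply]
    refine ⟨?_, ?_⟩
    · rw [SetLike.mem_coe, mem_rg, mulVec_mulVec, Pool.Agent.Y4.K.e_pr]
    · rw [SetLike.mem_coe, mem_eig, mulVec_mulVec, one_smul]
      congr 1
      unfold pr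
      rw [Matrix.mul_smul, ← mul_assoc, mul_add, mul_one, hD, add_comm (DZ Z)]
  · rintro v ⟨hv, hv'⟩
    rw [SetLike.mem_coe, mem_rg] at hv
    rw [SetLike.mem_coe, mem_eig, one_smul] at hv'
    refine ⟨v, ?_⟩
    rw [mulVecLin_apply]
    unfold pr
    rw [smul_mulVec, ← mulVec_mulVec, hv, add_mulVec, one_mulVec, hv', ← two_smul ℂ, smul_smul,
      inv_mul_cancel₀ two_ne_zero, one_smul]

theorem rg_qr (M : Pol Z) (φ : Pr Z) : LinearMap.range (mulVecLin (qr φ)) = rg φ ⊓ eig Z (-1) := by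
  have hD : DZ Z * DZ Z = 1 := M.D_sq
  apply le_antisymm
  · rintro _ ⟨v, rfl⟩
    rw [mulVecLin_apply]
    refine ⟨?_, ?_⟩
    · rw [SetLike.mem_coe, mem_rg, mulVec_mulVec, Pool.Agent.Y4.K.e_qr]
    · rw [SetLike.mem_coe, mem_eig, mulVec_mulVec, neg_one_smul, ← neg_mulVec]
      congr 1
      unfold qr
      rw [Matrix.mul_smul, ← mul_assoc, mul_sub, mul_one, hD, ← smul_neg, ← neg_mul, neg_sub]
  · rintro v ⟨hv, hv'⟩
    rw [SetLike.mem_coe, mem_rg] at hv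
    rw [SetLike.mem_coe, mem_eig, neg_one_smul] at hv'
    refine ⟨v, ?_⟩
    rw [mulVecLin_apply]
    unfold qr
    rw [smul_mulVec, ← mulVec_mulVec, hv, sub_mulVec, one_mulVec, hv', sub_neg_eq_add,
      ← two_smul ℂ, smul_smul, inv_mul_cancel₀ two_ne_zero, one_smul]

/-- The trace of the complex structure on the image. -/
theorem tr_rg (M : Pol Z) (φ : Pr Z) : tr Z (rg φ) = (mu φ : ℤ) - mu (M.bar φ) := by
  unfold tr
  have h1 : pd Z (rg φ) = mu φ := by
    unfold Pool.Agent.Y4.K.mu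
    rw [rg_pr M]
    rfl
  have h2 : qd Z (rg φ) = mu (M.bar φ) := by
    have h3 := M.trace_qr φ
    rw [Pool.Agent.Y4.G.trace_idemM (M.qr_idem φ)] at h3
    have h4 : qd Z (rg φ) = finrank ℂ (LinearMap.range (mulVecLin (qr φ))) := by
      rw [rg_qr M]
      rfl
    rw [h4]
    exact_mod_cast h3
  rw [h1, h2]

theorem cj_rg (M : Pol Z) (σ : ℂ ≃+* ℂ) (φ : Pr Z) : cjS σ (rg φ) = rg (M.act σ φ) := by
  ext v
  rw [mem_cjS, mem_rg, mem_rg, M.act_e]
  have h1 := map_mulVec_aut σ φ.e (fun i => σ.symm (v i))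
  have h2 : (fun i => σ (σ.symm (v i))) = v := funext fun i => σ.apply_symm_apply _
  rw [h2] at h1
  constructor
  · intro h
    rw [h] at h1
    change φ.e.map σ *ᵥ v = v
    rw [← h1, h2]
  · intro h
    have h3 : φ.e.map σ *ᵥ v = v := h
    rw [h3] at h1
    funext i
    apply σ.injective
    rw [congrFun h1 i, σ.apply_symm_apply]

/-- The trace of the conjugates of the complex structure. -/
theorem trace_DS (M : Pol Z) (σ : ℂ ≃+* ℂ) (φ : Pr Z) :
    trace (DS Z σ * φ.e) = (tr Z (cjS σ.symm (rg φ)) : ℂ) := by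
  have h1 := M.trace_P σ (M.act σ.symm φ)
  have h2 := M.trace_Q σ (M.act σ.symm φ)
  rw [M.act_symm'] at h1 h2
  rw [cj_rg M, tr_rg M]
  push_cast
  rw [← h1, ← h2, ← trace_sub]
  congr 1
  unfold DS
  have h3 : (DZ Z).map σ = (DZ Z).map (σ : ℂ →+* ℂ) := rfl
  rw [h3]
  obtain ⟨A, hA⟩ : ∃ A, A = (DZ Z).map (σ : ℂ →+* ℂ) := ⟨_, rfl⟩
  rw [← hA, Matrix.smul_mul, Matrix.smul_mul, ← smul_sub, ← sub_mul]
  have h4 : (1 : Matrix (Fin g ⊕ Fin g) (Fin g ⊕ Fin g) ℂ) + A - (1 - A) = (2 : ℂ) • A := by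
    module
  rw [h4, Matrix.smul_mul, smul_smul, inv_mul_cancel₀ two_ne_zero, one_smul]

end

end Pool.Agent.N178.HW
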