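import Mathlib
import Pool.Agent.V1168.GH.FrameZ
import Pool.Agent.N178.HW.Irr
import Pool.Agent.N178.HW.Core

/-!
# Frames in matrix form
-/

set_option linter.unusedSectionVars false

namespace Pool.Agent.N178.HW

open Matrix Module Pool.Agent.H204R3.SP Pool.Agent.W437.HC Pool.Agent.W437.HD Pool.Agent.V1168.GH
open Pool.Agent.Y4.K (Pol Pr Reps Dat mu pr qr Eqv Iso)
open Pool.Agent.Y4.H (Ct D_mem_LZ)
open Pool.Agent.Y4.G (trace_idemM)
open Pool.Agent.Y4.K (SS_spOm)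

noncomputable section

variable {g : ℕ} {Z : Matrix (Fin g) (Fin g) ℂ}

/-- The projection to a class. -/
def dg {P R : Type} [DecidableEq P] [DecidableEq R] (cls : R → P) (p : P) : Matrix R R ℂ :=
  diagonal fun z => if cls z = p then (1 : ℂ) else 0

/-- The data of a frame. -/
structure FrM {P R : Type} [Fintype P] [DecidableEq P] [Fintype R] [DecidableEq R]
    (ρ : P → Pr Z) (b : P → P) (Om' : Matrix (Fin g ⊕ Fin g) (Fin g ⊕ Fin g) ℂ)
    (cls : R → P) (inv : R → R) (jj : R → ℂ) (X : R → Prop) [DecidablePred X]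
    (Ev : Matrix (Fin g ⊕ Fin g) R ℂ) (Co : Matrix R (Fin g ⊕ Fin g) ℂ) : Prop where
  fr : Fr cls b inv jj X
  ce : Co * Ev = 1
  ec : Ev * Co = ∑ p, (ρ p).e
  ty : ∀ p, (ρ p).e * Ev = Ev * dg cls p
  D : DZ Z * Ev = Ev * diagonal fun z => (sX X z : ℂ)
  G : Evᵀ * Om' * Ev = Matrix.of (JJ inv jj)
  card : ∀ p, (XS cls X p).card = mu (ρ p)

theorem exists_frM (M : Pol Z) {P : Type} [Fintype P] [DecidableEq P] {ρ : P → Pr Z}
    {b : P → P} {Om' : Matrix (Fin g ⊕ Fin g) (Fin g ⊕ Fin g) ℂ} (Rp : Reps ρ)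
    (hbb : ∀ p, b (b p) = p) (Bs : Bas M ρ b Om') :
    ∃ (R : Type) (_ : Fintype R) (_ : DecidableEq R) (cls : R → P) (inv : R → R) (jj : R → ℂ)
      (X : R → Prop) (_ : DecidablePred X) (Ev : Matrix (Fin g ⊕ Fin g) R ℂ)
      (Co : Matrix R (Fin g ⊕ Fin g) ℂ), FrM ρ b Om' cls inv jj X Ev Co := by
  classical
  obtain ⟨D, hDd⟩ : ∃ D, D = DZ Z := ⟨_, rfl⟩
  have hDL : D ∈ Pool.Agent.Y4.H.LZ Z := by
    rw [hDd]
    exact D_mem_LZ
  have hD2 : D * D = 1 := by
    rw [hDd]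
    exact M.D_sq
  have hDe : ∀ p, (ρ p).e * D = D * (ρ p).e := fun p => (ρ p).mem D hDL
  obtain ⟨e', he'⟩ : ∃ e' : P × Bool → Matrix (Fin g ⊕ Fin g) (Fin g ⊕ Fin g) ℂ,
    e' = fun q => (ρ q.1).e * pj D q.2 := ⟨_, rfl⟩
  have hee : ∀ q, e' q * e' q = e' q := by
    intro q
    rw [he']
    change (ρ q.1).e * pj D q.2 * ((ρ q.1).e * pj D q.2) = (ρ q.1).e * pj D q.2
    rw [mul_assoc, ← mul_assoc (pj D q.2), ← pj_comm (hDe q.1), mul_assoc (ρ q.1).e (pj D q.2),
      pj_idem hD2, ← mul_assoc, (ρ q.1).idem]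
  have hfix : ∀ q x, e' q *ᵥ x = x → (ρ q.1).e *ᵥ x = x ∧ D *ᵥ x = sgn q.2 • x := by
    intro q x hx
    rw [he'] at hx
    constructor
    · nth_rewrite 1 [← hx]
      rw [mulVec_mulVec, ← mul_assoc, (ρ q.1).idem, hx]
    · nth_rewrite 1 [← hx]
      rw [mulVec_mulVec, ← mul_assoc, ← hDe, mul_assoc, D_pj hD2, Matrix.mul_smul, smul_mulVec,
        hx]
  have hfix' : ∀ q x, (ρ q.1).e *ᵥ x = x → D *ᵥ x = sgn q.2 • x → e' q *ᵥ x = x := by
    intro q x h1 h2
    rw [he']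
    change ((ρ q.1).e * pj D q.2) *ᵥ x = x
    rw [← mulVec_mulVec, pj_eig h2, if_pos rfl, h1]
  have hwD : ∀ x y, ww Om' (D *ᵥ x) y = -ww Om' x (D *ᵥ y) := by
    intro x y
    have h1 := Bs.inv D hDL
    have h2 : x ⬝ᵥ ((Dᵀ * Om' + Om' * D) *ᵥ y) = 0 := by rw [h1, zero_mulVec, dotProduct_zero]
    rw [add_mulVec, dotProduct_add, ← mulVec_mulVec, ← mulVec_mulVec, dotProduct_mulVec,
      vecMul_transpose] at h2
    exact eq_neg_of_add_eq_zero_left h2
  have hsg : ∀ s t x y, D *ᵥ x = sgn s • x → D *ᵥ y = sgn t • y → ww Om' x y ≠ 0 →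
      t = !s := by
    intro s t x y hx hy h
    have h1 := hwD x y
    rw [hx, hy, ww_smul_left, ww_smul_right] at h1
    have h2 : (sgn s + sgn t) * ww Om' x y = 0 := by linear_combination h1
    have h3 := (mul_eq_zero.1 h2).resolve_right h
    cases s <;> cases t <;> simp [sgn] at h3 ⊢
  obtain ⟨R, hR1, hR2, cls', inv, jj, ev, hinv, hjj, hj1, hci, hJ, hev, hspan⟩ :=
    exists_symp1 (e := e') (b := fun q => (b q.1, !q.2)) Bs.OT hee
      (fun q => Prod.ext (hbb _) (Bool.not_not _)) (by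
        intro p q x y hx hy h
        have h1 := hfix p x hx
        have h2 := hfix q y hy
        exact Prod.ext (Bs.pair _ _ _ _ h1.1 h2.1 h) (hsg _ _ _ _ h1.2 h2.2 h)) (by
        intro p x hx h
        have h1 := hfix p x hx
        refine Bs.rad p.1 x h1.1 fun y hy => ?_
        have h2 : y = pj D true *ᵥ y + pj D false *ᵥ y := by
          rw [← add_mulVec, pj_add, one_mulVec]
        have h3 : ∀ s, ww Om' x (pj D s *ᵥ y) = 0 := by
          intro s
          have h4 : D *ᵥ (pj D s *ᵥ y) = sgn s • (pj D s *ᵥ y) := by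
            rw [mulVec_mulVec, D_pj hD2, smul_mulVec]
          have h5 : (ρ (b p.1)).e *ᵥ (pj D s *ᵥ y) = pj D s *ᵥ y := by
            rw [mulVec_mulVec, pj_comm (hDe _), ← mulVec_mulVec, hy]
          by_contra hne
          have h6 := hsg _ _ _ _ h1.2 h4 hne
          apply hne
          refine h _ (hfix' (b p.1, !p.2) _ h5 ?_)
          rw [h4, h6]
        rw [h2, ww_add_right, h3, h3, add_zero]) (by
        intro p hp
        have h1 := congrArg Prod.snd hp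
        change (!p.2) = p.2 at h1
        cases h2 : p.2 <;> rw [h2] at h1 <;> simp at h1)
  have hfe : ∀ z, (ρ (cls' z).1).e *ᵥ ev z = ev z := fun z => (hfix _ _ (hev z)).1
  have hDev : ∀ z, D *ᵥ ev z = sgn (cls' z).2 • ev z := fun z => (hfix _ _ (hev z)).2
  have hv : ∀ p z, (ρ p).e *ᵥ ev z = if (cls' z).1 = p then ev z else 0 := by
    intro p z
    by_cases h : (cls' z).1 = p
    · rw [if_pos h, ← h, hfe]
    · rw [if_neg h, ← hfe z, mulVec_mulVec, Rp.orth _ _ (Ne.symm h), zero_mulVec]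
  -- coordinates
  let Ev : Matrix (Fin g ⊕ Fin g) R ℂ := Matrix.of fun k z => ev z k
  let Co : Matrix R (Fin g ⊕ Fin g) ℂ :=
    Matrix.of fun z k => (jj (inv z))⁻¹ * (ev (inv z) ᵥ* Om') k
  have hj0 : ∀ x, jj x ≠ 0 := fun x => by
    rcases hj1 x with h | h <;> rw [h] <;> norm_num
  have hCo : ∀ z v, (Co *ᵥ v) z = (jj (inv z))⁻¹ * ww Om' (ev (inv z)) v := by
    intro z v
    change ∑ k, (jj (inv z))⁻¹ * (ev (inv z) ᵥ* Om') k * v k = _
    unfold ww
    rw [dotProduct_mulVec, dotProduct, Finset.mul_sum]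
    exact Finset.sum_congr rfl fun i _ => by ring
  have hCoe : ∀ x y, (Co *ᵥ ev y) x = if x = y then 1 else 0 := by
    intro x y
    rw [hCo, hJ]
    unfold JJ
    rw [hinv]
    by_cases h : x = y
    · subst h
      rw [if_pos rfl, if_pos rfl, inv_mul_cancel₀ (hj0 _)]
    · rw [if_neg (fun h' => h h'.symm), if_neg h, mul_zero]
  have hrec0 : ∀ p v, e' p *ᵥ v = v → Ev *ᵥ (Co *ᵥ v) = v := by
    intro p v hv
    have h1 := hspan p v hv
    have h2 : Submodule.span ℂ (ev '' {z | cls' z = p}) ≤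
        LinearMap.ker (mulVecLin (Ev * Co) - LinearMap.id) := by
      rw [Submodule.span_le]
      rintro _ ⟨y, _, rfl⟩
      rw [SetLike.mem_coe, LinearMap.mem_ker, LinearMap.sub_apply, mulVecLin_apply,
        ← mulVec_mulVec, LinearMap.id_apply, sub_eq_zero]
      have h3 : Co *ᵥ ev y = Pi.single y 1 := by
        funext x
        rw [hCoe, Pi.single_apply]
      rw [h3, mulVec_single_one]
      rfl
    have h3 := h2 h1
    rw [LinearMap.mem_ker, LinearMap.sub_apply, mulVecLin_apply, ← mulVec_mulVec,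
      LinearMap.id_apply, sub_eq_zero] at h3
    exact h3
  have hdec : ∀ p v, (ρ p).e *ᵥ v = v → ∀ s, e' (p, s) *ᵥ (pj D s *ᵥ v) = pj D s *ᵥ v := by
    intro p v hv s
    refine hfix' (p, s) _ ?_ ?_
    · rw [mulVec_mulVec, pj_comm (hDe _), ← mulVec_mulVec, hv]
    · rw [mulVec_mulVec, D_pj hD2, smul_mulVec]
  have hrec : ∀ p v, (ρ p).e *ᵥ v = v → Ev *ᵥ (Co *ᵥ v) = v := by
    intro p v hv
    have h2 : v = pj D true *ᵥ v + pj D false *ᵥ v := by
      rw [← add_mulVec, pj_add, one_mulVec]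
    have h3 := hrec0 _ _ (hdec p v hv true)
    have h4 := hrec0 _ _ (hdec p v hv false)
    nth_rewrite 1 [h2]
    rw [mulVec_add, mulVec_add, h3, h4, ← h2]
  have hG : Matrix.of (JJ inv jj) = Evᵀ * Om' * Ev := by
    ext x y
    rw [Matrix.of_apply, ← hJ x y, Matrix.mul_assoc, Matrix.mul_apply]
    simp only [ww, dotProduct, Matrix.transpose_apply, Matrix.mul_apply, mulVec]
    rfl
  have hCE : Co * Ev = 1 := by
    ext x y
    rw [Matrix.one_apply]
    exact hCoe x y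
  have hECe : ∀ p, Ev * Co * (ρ p).e = (ρ p).e := by
    intro p
    ext i j
    have h1 : (ρ p).e *ᵥ (fun k => (ρ p).e k j) = fun k => (ρ p).e k j := by
      funext k
      exact congrFun (congrFun (ρ p).idem k) j
    rw [Matrix.mul_assoc]
    exact congrFun (hrec p _ h1) i
  have hCe : Co * ∑ p, (ρ p).e = Co := by
    have h1 : ∀ z, ev (inv z) ᵥ* (Om' * ∑ p, (ρ p).e) = ev (inv z) ᵥ* Om' := by
      intro z
      have h2 : Om' * ∑ p, (ρ p).e = (∑ p, (ρ p).eᵀ) * Om' := by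
        rw [Finset.mul_sum, Finset.sum_mul, Finset.sum_congr rfl fun p _ => Bs.Um p]
        exact (Equiv.sum_comp (⟨b, b, hbb, hbb⟩ : P ≃ P) (fun p => (ρ p).eᵀ * Om'))
      rw [h2, ← vecMul_vecMul]
      congr 1
      have h3 : ∀ p, ev (inv z) ᵥ* (ρ p).eᵀ = if (cls' (inv z)).1 = p then ev (inv z) else 0 := by
        intro p
        rw [vecMul_transpose, hv]
      rw [Matrix.vecMul_sum, Finset.sum_congr rfl fun p _ => h3 p, Finset.sum_ite_eq,
        if_pos (Finset.mem_univ _)]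
    ext z k
    have h2 : (Co * ∑ p, (ρ p).e) z k =
        (jj (inv z))⁻¹ * (ev (inv z) ᵥ* (Om' * ∑ p, (ρ p).e)) k := by
      rw [← vecMul_vecMul, Matrix.mul_apply, vecMul, dotProduct, Finset.mul_sum]
      refine Finset.sum_congr rfl fun l _ => ?_
      change (jj (inv z))⁻¹ * (ev (inv z) ᵥ* Om') l * _ = _
      ring
    rw [h2, h1]
    rfl
  refine ⟨R, hR1, hR2, fun z => (cls' z).1, inv, jj, fun z => (cls' z).2 = true, inferInstance,
    Ev, Co, ⟨⟨hinv, hjj, hj1, fun x => ?_, fun x => ?_⟩, hCE, ?_, fun p => ?_, ?_, hG.symm, ?_⟩⟩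
  · rw [hci]
  · rw [hci]
    change (!(cls' x).2) = true ↔ ¬ (cls' x).2 = true
    cases (cls' x).2 <;> simp
  · rw [← hCe, ← Matrix.mul_assoc, Matrix.mul_sum, Finset.sum_congr rfl fun p _ => hECe p]
  · ext i z
    unfold dg
    rw [Matrix.mul_diagonal]
    have h1 := congrFun (hv p z) i
    change ((ρ p).e *ᵥ ev z) i = ev z i * _
    rw [h1]
    by_cases h : (cls' z).1 = p
    · rw [if_pos h, if_pos h, mul_one]
    · rw [if_neg h, if_neg h, mul_zero]
      rfl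
  · ext i z
    rw [Matrix.mul_diagonal, ← hDd]
    have h1 := congrFun (hDev z) i
    change (D *ᵥ ev z) i = ev z i * _
    rw [h1, Pi.smul_apply, smul_eq_mul, mul_comm]
    congr 1
    unfold sX sgn
    cases h2 : (cls' z).2 <;> simp [h2]
  · -- the number of vectors
    intro p
    have h1 : e' (p, true) = Ev * (Co * e' (p, true)) := by
      ext i j
      have h2 : e' (p, true) *ᵥ (fun k => e' (p, true) k j) = fun k => e' (p, true) k j := by
        funext k
        exact congrFun (congrFun (hee (p, true)) k) j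
      exact (congrFun (hrec0 _ _ h2) i).symm
    have h2 : trace (e' (p, true)) =
        ((XS (fun z => (cls' z).1) (fun z => (cls' z).2 = true) p).card : ℂ) := by
      rw [h1, trace_mul_comm, XS, ← Finset.sum_boole, trace]
      refine Finset.sum_congr rfl fun z _ => ?_
      have h3 : (Co * e' (p, true) * Ev).diag z = (Co *ᵥ (e' (p, true) *ᵥ ev z)) z := by
        rw [mulVec_mulVec]
        rfl
      rw [h3]
      have h4 : e' (p, true) *ᵥ ev z =
          if (cls' z).2 = true ∧ (cls' z).1 = p then ev z else 0 := by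
        rw [he']
        change ((ρ p).e * pj D true) *ᵥ ev z = _
        rw [← mulVec_mulVec, pj_eig (hDev z)]
        by_cases h5 : (cls' z).2 = true
        · rw [if_pos h5, hv]
          by_cases h6 : (cls' z).1 = p
          · rw [if_pos h6, if_pos ⟨h5, h6⟩]
          · rw [if_neg h6, if_neg (fun h => h6 h.2)]
        · rw [if_neg h5, if_neg (fun h => h5 h.1), mulVec_zero]
      rw [h4]
      by_cases h5 : (cls' z).2 = true ∧ (cls' z).1 = p
      · rw [if_pos h5, if_pos h5, hCoe, if_pos rfl]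
      · rw [if_neg h5, if_neg h5, mulVec_zero, Pi.zero_apply]
    have h4 : trace (e' (p, true)) = (mu (ρ p) : ℂ) := by
      rw [← M.trace_pr, he']
      change trace ((ρ p).e * pj D true) = _
      rw [pj_comm (hDe p), hDd]
      unfold pj pr
      rw [Matrix.smul_mul]
      congr 3
      change (1 : Matrix _ _ ℂ) + (1 : ℂ) • DZ Z = 1 + DZ Z
      rw [one_smul]
    rw [h2] at h4
    exact_mod_cast h4

section use

variable {P R : Type} [Fintype P] [DecidableEq P] [Fintype R] [DecidableEq R]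
  {ρ : P → Pr Z} {b : P → P} {Om' : Matrix (Fin g ⊕ Fin g) (Fin g ⊕ Fin g) ℂ}
  {cls : R → P} {inv : R → R} {jj : R → ℂ} {X : R → Prop} [DecidablePred X]
  {Ev : Matrix (Fin g ⊕ Fin g) R ℂ} {Co : Matrix R (Fin g ⊕ Fin g) ℂ}

theorem trace_dg (Y : Matrix R R ℂ) (p : P) :
    trace (Y * dg cls p) = ∑ x ∈ Finset.univ.filter (fun x => cls x = p), Y x x := by
  rw [trace, Finset.sum_filter]
  refine Finset.sum_congr rfl fun x _ => ?_
  rw [Matrix.diag_apply]
  unfold dg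
  rw [Matrix.mul_diagonal]
  split_ifs <;> ring

/-- The matrices which preserve the classes. -/
theorem comm_dg {Y : Matrix R R ℂ} (h : ∀ x y, cls x ≠ cls y → Y x y = 0) (p : P) :
    dg cls p * Y = Y * dg cls p := by
  ext x y
  unfold dg
  rw [Matrix.diagonal_mul, Matrix.mul_diagonal]
  by_cases hxy : cls x = cls y
  · rw [hxy]
    ring
  · rw [h x y hxy, mul_zero, zero_mul]

theorem of_comm_dg {Y : Matrix R R ℂ} (h : ∀ p, dg cls p * Y = Y * dg cls p) :
    ∀ x y, cls x ≠ cls y → Y x y = 0 := by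
  intro x y hxy
  have h1 := congrFun (congrFun (h (cls y)) x) y
  unfold dg at h1
  rw [Matrix.diagonal_mul, Matrix.mul_diagonal, if_neg hxy, if_pos rfl, zero_mul, mul_one] at h1
  exact h1.symm

/-- The symplectic condition in coordinates. -/
theorem sp_iff (hF : Fr cls b inv jj X) (Y : Matrix R R ℂ) :
    Yᵀ * Matrix.of (JJ inv jj) + Matrix.of (JJ inv jj) * Y = 0 ↔
      ∀ x y, Y (inv y) (inv x) = -(jj x * jj y * Y x y) := by
  have h1 : ∀ x y, (Yᵀ * Matrix.of (JJ inv jj) + Matrix.of (JJ inv jj) * Y) x y =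
      -(jj y) * Y (inv y) x + jj x * Y (inv x) y := by
    intro x y
    rw [Matrix.add_apply, Matrix.mul_apply, Matrix.mul_apply, Finset.sum_eq_single (inv y),
      Finset.sum_eq_single (inv x)]
    · rw [Matrix.of_apply, Matrix.of_apply, Matrix.transpose_apply]
      unfold JJ
      rw [hF.ii, if_pos rfl, if_pos rfl, hF.jn]
      ring
    · intro z _ hz
      rw [Matrix.of_apply]
      unfold JJ
      rw [if_neg hz, zero_mul]
    · intro h
      exact absurd (Finset.mem_univ _) h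
    · intro z _ hz
      rw [Matrix.of_apply]
      unfold JJ
      rw [if_neg (fun h => hz (by rw [h, hF.ii])), mul_zero]
    · intro h
      exact absurd (Finset.mem_univ _) h
  constructor
  · intro h x y
    have h2 := h1 (inv x) y
    rw [h, hF.ii, hF.jn, Matrix.zero_apply] at h2
    have h3 := jj_sq hF y
    linear_combination (jj y) * h2 - (Y (inv y) (inv x)) * h3
  · intro h
    ext x y
    rw [h1, Matrix.zero_apply]
    have h2 := h (inv x) y
    rw [hF.ii, hF.jn] at h2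
    have h3 := jj_sq hF y
    rw [h2]
    linear_combination (-(jj x * Y (inv x) y)) * h3

variable (F : FrM ρ b Om' cls inv jj X Ev Co)
include F

theorem FrM.CoE : Co * ∑ p, (ρ p).e = Co := by
  rw [← F.ec, ← Matrix.mul_assoc, F.ce, Matrix.one_mul]

theorem FrM.EEv : (∑ p, (ρ p).e) * Ev = Ev := by
  rw [← F.ec, Matrix.mul_assoc, F.ce, Matrix.mul_one]

theorem FrM.eE (Rp : Reps ρ) (p : P) : (ρ p).e * ∑ q, (ρ q).e = (ρ p).e := by
  rw [Finset.mul_sum, Finset.sum_eq_single p]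
  · exact (ρ p).idem
  · intro q _ hq
    exact Rp.orth _ _ (Ne.symm hq)
  · intro h
    exact absurd (Finset.mem_univ _) h

theorem FrM.Coe (Rp : Reps ρ) (p : P) : Co * (ρ p).e = dg cls p * Co := by
  rw [← F.eE Rp p, ← F.ec, ← Matrix.mul_assoc (ρ p).e, F.ty, ← Matrix.mul_assoc,
    ← Matrix.mul_assoc, F.ce, Matrix.one_mul]

theorem FrM.eEv (p : P) : (ρ p).e * Ev = Ev * dg cls p := F.ty p

/-- The elements of the Lie algebra in coordinates. -/
theorem FrM.cd {Y : Matrix (Fin g ⊕ Fin g) (Fin g ⊕ Fin g) ℂ}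
    (hY : ∀ p, (ρ p).e * Y = Y * (ρ p).e) :
    Y * Ev = Ev * (Co * Y * Ev) ∧ Co * Y = (Co * Y * Ev) * Co := by
  have hE : (∑ p, (ρ p).e) * Y = Y * ∑ p, (ρ p).e := by
    rw [Finset.sum_mul, Finset.mul_sum]
    exact Finset.sum_congr rfl fun p _ => hY p
  constructor
  · have h1 : Ev * (Co * Y * Ev) = (Ev * Co) * Y * Ev := by simp only [Matrix.mul_assoc]
    rw [h1, F.ec, hE, Matrix.mul_assoc, F.EEv]
  · rw [Matrix.mul_assoc (Co * Y), F.ec, Matrix.mul_assoc, ← hE, ← Matrix.mul_assoc, F.CoE]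

theorem FrM.cd_cls (Rp : Reps ρ) {Y : Matrix (Fin g ⊕ Fin g) (Fin g ⊕ Fin g) ℂ}
    (hY : ∀ p, (ρ p).e * Y = Y * (ρ p).e) :
    ∀ x y, cls x ≠ cls y → (Co * Y * Ev) x y = 0 := by
  refine of_comm_dg fun p => ?_
  rw [Matrix.mul_assoc (Co * Y), ← F.eEv, ← Matrix.mul_assoc, ← Matrix.mul_assoc,
    ← Matrix.mul_assoc, ← F.Coe Rp, Matrix.mul_assoc Co, hY, ← Matrix.mul_assoc]

theorem FrM.cd_sp {Y : Matrix (Fin g ⊕ Fin g) (Fin g ⊕ Fin g) ℂ}
    (hY : ∀ p, (ρ p).e * Y = Y * (ρ p).e) (hs : Yᵀ * Om' + Om' * Y = 0) :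
    ∀ x y, (Co * Y * Ev) (inv y) (inv x) = -(jj x * jj y * (Co * Y * Ev) x y) := by
  rw [← sp_iff F.fr, ← F.G]
  have h1 := (F.cd hY).1
  have h2 : Evᵀ * Om' * Ev * (Co * Y * Ev) = Evᵀ * (Om' * Y) * Ev := by
    rw [Matrix.mul_assoc (Evᵀ * Om'), ← h1]
    simp only [Matrix.mul_assoc]
  have h3 : (Co * Y * Ev)ᵀ * (Evᵀ * Om' * Ev) = Evᵀ * (Yᵀ * Om') * Ev := by
    have h4 : (Co * Y * Ev)ᵀ * Evᵀ = Evᵀ * Yᵀ := by
      rw [← transpose_mul, ← h1, transpose_mul]
    calc (Co * Y * Ev)ᵀ * (Evᵀ * Om' * Ev) = ((Co * Y * Ev)ᵀ * Evᵀ) * Om' * Ev := by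
          simp only [Matrix.mul_assoc]
    _ = _ := by
      rw [h4]
      simp only [Matrix.mul_assoc]
  rw [h2, h3, ← Matrix.add_mul, ← Matrix.mul_add, hs, Matrix.mul_zero, Matrix.zero_mul]

theorem FrM.cd_tr (Rp : Reps ρ) (Y : Matrix (Fin g ⊕ Fin g) (Fin g ⊕ Fin g) ℂ) (p : P) :
    ∑ x ∈ Finset.univ.filter (fun x => cls x = p), (Co * Y * Ev) x x = trace (Y * (ρ p).e) := by
  rw [← trace_dg, Matrix.mul_assoc, ← F.eEv, ← Matrix.mul_assoc, trace_mul_comm,
    ← Matrix.mul_assoc, ← Matrix.mul_assoc, F.ec, Matrix.mul_assoc, trace_mul_comm,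
    Matrix.mul_assoc, F.eE Rp]

/-- The matrices in the coordinates as matrices. -/
theorem FrM.up_cls (Rp : Reps ρ) {Y : Matrix R R ℂ} (h : ∀ x y, cls x ≠ cls y → Y x y = 0)
    (p : P) : (ρ p).e * (Ev * Y * Co) = (Ev * Y * Co) * (ρ p).e := by
  rw [Matrix.mul_assoc (Ev * Y), F.Coe Rp, ← Matrix.mul_assoc, ← Matrix.mul_assoc, F.eEv,
    Matrix.mul_assoc Ev, comm_dg h]
  simp only [Matrix.mul_assoc]

theorem FrM.up_sp (M : Pol Z) (hbb : ∀ p, b (b p) = p) (Bs : Bas M ρ b Om') {Y : Matrix R R ℂ}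
    (h : ∀ x y, Y (inv y) (inv x) = -(jj x * jj y * Y x y)) :
    (Ev * Y * Co)ᵀ * Om' + Om' * (Ev * Y * Co) = 0 := by
  have h1 : Om' * ∑ p, (ρ p).e = (∑ p, (ρ p).e)ᵀ * Om' := by
    rw [Finset.mul_sum, Matrix.transpose_sum, Finset.sum_mul,
      Finset.sum_congr rfl fun p _ => Bs.Um p]
    exact (Equiv.sum_comp (⟨b, b, hbb, hbb⟩ : P ≃ P) (fun p => (ρ p).eᵀ * Om'))
  have h2 : Om' * Ev = Coᵀ * Matrix.of (JJ inv jj) := by
    rw [← F.G, ← Matrix.mul_assoc, ← Matrix.mul_assoc, ← transpose_mul, F.ec, ← h1,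
      Matrix.mul_assoc, F.EEv]
  have h3 : Evᵀ * Om' = Matrix.of (JJ inv jj) * Co := by
    rw [← F.G, Matrix.mul_assoc (Evᵀ * Om'), F.ec, Matrix.mul_assoc, h1, ← Matrix.mul_assoc,
      ← transpose_mul, F.EEv]
  have h4 := (sp_iff F.fr Y).2 h
  rw [transpose_mul, transpose_mul]
  calc Coᵀ * (Yᵀ * Evᵀ) * Om' + Om' * (Ev * Y * Co) =
      Coᵀ * Yᵀ * (Evᵀ * Om') + (Om' * Ev) * Y * Co := by simp only [Matrix.mul_assoc]
  _ = Coᵀ * (Yᵀ * Matrix.of (JJ inv jj) + Matrix.of (JJ inv jj) * Y) * Co := by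
    rw [h2, h3, Matrix.mul_add, Matrix.add_mul]
    simp only [Matrix.mul_assoc]
  _ = 0 := by rw [h4, Matrix.mul_zero, Matrix.zero_mul]

theorem FrM.up_tr (Rp : Reps ρ) (Y : Matrix R R ℂ) (p : P) :
    trace ((Ev * Y * Co) * (ρ p).e) = ∑ x ∈ Finset.univ.filter (fun x => cls x = p), Y x x := by
  rw [← trace_dg, Matrix.mul_assoc, F.Coe Rp, trace_mul_comm, ← Matrix.mul_assoc,
    Matrix.mul_assoc (dg cls p), F.ce, Matrix.mul_one, trace_mul_comm]

end use

end

end Pool.Agent.N178.HW
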