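import Mathlib
import Pool.Agent.N178.HW.FrameN
import Pool.Agent.N178.HW.PL
import Pool.Agent.V1168.GH.Coniveau
import Pool.Agent.N42.GHC.Hgt
import Pool.Agent.N42.GHC.Dom
import Pool.Agent.N661.GHC.Vec
import Pool.Agent.N76.GHC.Swap
import Pool.Agent.N78.GHC.Top
import Pool.Agent.N803.GHC.Graph
import Pool.Agent.N216.GHC.F
import Pool.Agent.N134.HW.Stb

/-!
# Equivariant maps to tensor spaces of small degree
-/

set_option linter.unusedSectionVars false

namespace Pool.Agent.N178.HW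

open Matrix Module Pool.Agent.H204R3.SP Pool.Agent.W437.HC Pool.Agent.W437.HD Pool.Agent.V1168.GH
open Pool.Agent.W548.Odd (LA LA_self)
open Pool.Agent.Y4.K (Pol Pr Reps Dat mu pr qr Eqv Iso)
open Pool.Agent.Y4.H (Ct D_mem_LZ)
open Pool.Agent.Y90 (PM AVZ IrS tr cjS DS AV IsHom)
open Pool.Agent.R915 (LCF')

noncomputable section

variable {g : ℕ} {Z : Matrix (Fin g) (Fin g) ℂ}

section act

variable {κ R : Type} [Fintype κ] [DecidableEq κ] [Fintype R] [DecidableEq R]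

theorem act_diagonal (d : R → ℂ) (c : (κ → R) → ℂ) (z : κ → R) :
    act (diagonal d) c z = (∑ k, d (z k)) * c z := by
  unfold act
  rw [Finset.sum_mul]
  refine Finset.sum_congr rfl fun k _ => ?_
  rw [Finset.sum_eq_single (z k)]
  · rw [Matrix.diagonal_apply_eq, Function.update_eq_self]
  · intro y _ hy
    have h1 : (diagonal d : Matrix R R ℂ) y (z k) = 0 := Matrix.diagonal_apply_ne _ hy
    rw [h1, zero_mul]
  · intro h
    exact absurd (Finset.mem_univ _) h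

/-- The parity of the degree. -/
theorem parity {κ' : Type} [Fintype κ'] [DecidableEq κ'] {X : R → Prop} [DecidablePred X]
    {φ : ((κ → R) → ℂ) →ₗ[ℂ] ((κ' → R) → ℂ)}
    (hφ : ∀ u, φ (act (diagonal fun z => (sX X z : ℂ)) u) =
      act (diagonal fun z => (sX X z : ℂ)) (φ u)) {u : (κ → R) → ℂ} (hu : φ u ≠ 0) :
    Even (Fintype.card κ + Fintype.card κ') := by
  have hpar : ∀ (κ : Type) [Fintype κ] (z : κ → R), Even ((∑ k, sX X (z k)) + Fintype.card κ) := by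
    intro κ _ z
    have h1 : (∑ k, sX X (z k)) + (Fintype.card κ : ℤ) = ∑ k, (sX X (z k) + 1) := by
      rw [Finset.sum_add_distrib, Finset.sum_const, Finset.card_univ, nsmul_eq_mul, mul_one]
    rw [h1]
    refine Finset.even_sum _ ?_
    intro k _
    unfold sX
    split_ifs
    · exact ⟨1, rfl⟩
    · exact ⟨0, rfl⟩
  -- a delta function with nonzero image
  obtain ⟨z, hz⟩ : ∃ z : κ → R, φ (Pi.single z 1) ≠ 0 := by
    by_contra hcon
    push Not at hcon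
    apply hu
    have h1 : u = ∑ z, u z • (Pi.single z (1 : ℂ) : (κ → R) → ℂ) := by
      funext I
      rw [Finset.sum_apply, Finset.sum_eq_single I]
      · rw [Pi.smul_apply, Pi.single_eq_same, smul_eq_mul, mul_one]
      · intro J _ hJ
        rw [Pi.smul_apply, Pi.single_eq_of_ne (Ne.symm hJ), smul_zero]
      · intro h
        exact absurd (Finset.mem_univ _) h
    rw [h1, map_sum]
    refine Finset.sum_eq_zero fun z _ => ?_
    rw [map_smul, hcon, smul_zero]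
  obtain ⟨z', hz'⟩ := Function.ne_iff.1 hz
  have h1 : act (diagonal fun z => (sX X z : ℂ)) (Pi.single z (1 : ℂ) : (κ → R) → ℂ) =
      (∑ k, (sX X (z k) : ℂ)) • (Pi.single z (1 : ℂ) : (κ → R) → ℂ) := by
    funext I
    rw [act_diagonal, Pi.smul_apply, smul_eq_mul]
    by_cases h : I = z
    · rw [h]
    · rw [Pi.single_eq_of_ne h, mul_zero, mul_zero]
  have h2 := congrFun (hφ (Pi.single z 1)) z'
  rw [h1, map_smul, Pi.smul_apply, smul_eq_mul, act_diagonal] at h2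
  have h3 := mul_right_cancel₀ hz' h2
  have h4 : ∑ k, sX X (z k) = ∑ k, sX X (z' k) := by exact_mod_cast h3
  have h5 := hpar κ z
  have h6 := hpar κ' z'
  rw [h4] at h5
  have h7 := h5.add h6
  rw [← Int.even_coe_nat]
  push_cast
  have h8 : (Fintype.card κ : ℤ) + Fintype.card κ' = (∑ k, sX X (z' k)) + (Fintype.card κ : ℤ) +
      ((∑ k, sX X (z' k)) + Fintype.card κ') - 2 * ∑ k, sX X (z' k) := by ring
  rw [h8]
  exact h7.sub (even_two_mul _)

end act

section main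

variable {P R : Type} [Fintype P] [DecidableEq P] [Fintype R] [DecidableEq R]
  {ρ : P → Pr Z} {b : P → P} {Om' : Matrix (Fin g ⊕ Fin g) (Fin g ⊕ Fin g) ℂ}
  {cls : R → P} {inv : R → R} {jj : R → ℂ} {X : R → Prop} [DecidablePred X]
  {Ev : Matrix (Fin g ⊕ Fin g) R ℂ} {Co : Matrix R (Fin g ⊕ Fin g) ℂ}

/-- The traces of the elements of the Lie algebra. -/
theorem trace_mem (M : Pol Z) {e : P → ℤ} (he : ∀ p, e p = tr Z (rg (ρ p)))
    (hirr : ∀ p, IrS (Pool.Agent.Y90.LZ Z) (rg (ρ p)))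
    (hgal : ∀ σ : ℂ ≃+* ℂ, ∃ s : ℤ, ∀ U, IrS (Pool.Agent.Y90.LZ Z) U →
      tr Z (cjS σ U) = s * tr Z U) {Y : Matrix (Fin g ⊕ Fin g) (Fin g ⊕ Fin g) ℂ}
    (hY : Y ∈ Pool.Agent.Y90.LZ Z) : (fun p => trace (Y * (ρ p).e)) ∈ Tl e := by
  let L' : Submodule ℂ (Matrix (Fin g ⊕ Fin g) (Fin g ⊕ Fin g) ℂ) :=
    { carrier := {Y | (∀ p, (ρ p).e * Y = Y * (ρ p).e) ∧ (fun p => trace (Y * (ρ p).e)) ∈ Tl e}
      zero_mem' := by
        refine ⟨fun p => by rw [mul_zero, zero_mul], ?_⟩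
        have h1 : (fun p => trace ((0 : Matrix (Fin g ⊕ Fin g) (Fin g ⊕ Fin g) ℂ) * (ρ p).e)) = 0 := by
          funext p
          rw [zero_mul, trace_zero]
          rfl
        rw [h1]
        exact Submodule.zero_mem _
      add_mem' := by
        rintro A C ⟨a1, a2⟩ ⟨c1, c2⟩
        refine ⟨fun p => by rw [mul_add, add_mul, a1, c1], ?_⟩
        have h1 : (fun p => trace ((A + C) * (ρ p).e)) = (fun p => trace (A * (ρ p).e)) +
            fun p => trace (C * (ρ p).e) := by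
          funext p
          rw [add_mul, trace_add]
          rfl
        rw [h1]
        exact Submodule.add_mem _ a2 c2
      smul_mem' := by
        rintro r A ⟨a1, a2⟩
        refine ⟨fun p => by rw [Matrix.mul_smul, Matrix.smul_mul, a1], ?_⟩
        have h1 : (fun p => trace ((r • A) * (ρ p).e)) = r • fun p => trace (A * (ρ p).e) := by
          funext p
          rw [Matrix.smul_mul, trace_smul]
          rfl
        rw [h1]
        exact Submodule.smul_mem _ _ a2 }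
  have h1 : Pool.Agent.Y90.LZ Z ≤ L' := by
    refine Pool.Agent.Y90.LZ_le (fun σ => ?_) ?_
    · refine ⟨fun p => (ρ p).mem _ (mem_LZ' (Pool.Agent.Y90.DS_mem σ)), ?_⟩
      obtain ⟨s, hs⟩ := hgal σ.symm
      refine mem_Tl.2 ⟨s, ?_⟩
      funext p
      rw [trace_DS M, hs _ (hirr p), he]
      push_cast
      rfl
    · rintro A ⟨a1, a2⟩ C ⟨c1, c2⟩
      refine ⟨fun p => ?_, ?_⟩
      · have h2 : (ρ p).e * (A * C) = A * C * (ρ p).e := by
          rw [← mul_assoc, a1, mul_assoc, c1, ← mul_assoc]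
        have h3 : (ρ p).e * (C * A) = C * A * (ρ p).e := by
          rw [← mul_assoc, c1, mul_assoc, a1, ← mul_assoc]
        rw [mul_sub, sub_mul, h2, h3]
      · have h2 : (fun p => trace ((A * C - C * A) * (ρ p).e)) = 0 := by
          funext p
          have h3 : trace (C * A * (ρ p).e) = trace (A * C * (ρ p).e) := by
            rw [mul_assoc, trace_mul_comm, mul_assoc, c1 p, ← mul_assoc]
          rw [sub_mul, trace_sub, h3, sub_self]
          rfl
        rw [h2]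
        exact Submodule.zero_mem _
  exact (h1 hY).2

variable (F : FrM ρ b Om' cls inv jj X Ev Co)
include F

/-- The elements of the Lie algebra are in `GR`. -/
theorem FrM.mem_GR (M : Pol Z) (Rp : Reps ρ) (Bs : Bas M ρ b Om') {e : P → ℤ}
    (he : ∀ p, e p = tr Z (rg (ρ p)))
    (hirr : ∀ p, IrS (Pool.Agent.Y90.LZ Z) (rg (ρ p)))
    (hgal : ∀ σ : ℂ ≃+* ℂ, ∃ s : ℤ, ∀ U, IrS (Pool.Agent.Y90.LZ Z) U →
      tr Z (cjS σ U) = s * tr Z U) {Y : Matrix (Fin g ⊕ Fin g) (Fin g ⊕ Fin g) ℂ}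
    (hY : Y ∈ Pool.Agent.Y90.LZ Z) : Co * Y * Ev ∈ GR cls inv jj (Tl e) := by
  have hc : ∀ p, (ρ p).e * Y = Y * (ρ p).e := fun p => (ρ p).mem Y (mem_LZ' hY)
  refine ⟨F.cd_cls Rp hc, F.cd_sp hc (Bs.inv Y (mem_LZ' hY)), ?_⟩
  have h1 : (fun p => ∑ x ∈ Finset.univ.filter (fun x => cls x = p), (Co * Y * Ev) x x) =
      fun p => trace (Y * (ρ p).e) := funext fun p => F.cd_tr Rp Y p
  rw [h1]
  exact trace_mem M he hirr hgal hY

/-- The elements of `GR` extend to matrices which kill the invariant tensors. -/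
theorem FrM.ext_GR (hTK : S_TK) (h : PM Z) (hL : LCF' Z) (M : Pol Z)
    {u w : P → Matrix (Fin g ⊕ Fin g) (Fin g ⊕ Fin g) ℂ} (Rp : Reps ρ) (Dt : Dat M ρ b u w)
    (hOm : Om' = Om g ℂ * ∑ p, u p) {e : P → ℤ} (he : ∀ p, e p = tr Z (rg (ρ p)))
    {Y : Matrix R R ℂ} (hY : Y ∈ GR cls inv jj (Tl e)) :
    ∃ N ∈ Tk (Pool.Agent.Y90.LZ Z), (∀ c, Ct Z c → N * c = c * N) ∧ N * Ev = Ev * Y := by
  have Bs := exists_bas M Rp Dt
  rw [← hOm] at Bs
  obtain ⟨hY1, hY2, hY3⟩ := hY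
  obtain ⟨lam, hlam⟩ := mem_Tl.1 hY3
  have hS1 := F.up_cls Rp hY1
  have hS2 := F.up_sp M Dt.bb Bs hY2
  rw [hOm] at hS2
  obtain ⟨N, hN1, hN2, hN3⟩ := M.morita Rp Dt hS1 hS2
  refine ⟨N, hTK h hL N lam hN1 hN2 ?_, hN1, ?_⟩
  · intro W hW hNW
    obtain ⟨φ, rfl⟩ := pr_of_irr h hW
    rw [trace_rg hNW]
    obtain ⟨p, hp⟩ := Rp.surj φ
    have h1 := Eqv.trace hp (X := N) fun c hc => (hN1 c hc).symm
    rw [← h1, hN3, F.up_tr Rp]
    have h2 := congrFun hlam p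
    beta_reduce at h2
    rw [h2, he]
    congr 2
    rw [tr_rg M, tr_rg M, M.mu_eqv hp, M.mu_eqv (M.eqv_bar hp)]
  · calc N * Ev = N * ((∑ p, (ρ p).e) * Ev) := by rw [F.EEv]
    _ = (∑ p, N * (ρ p).e) * Ev := by rw [← Matrix.mul_assoc, Finset.mul_sum]
    _ = (∑ p, (Ev * Y * Co) * (ρ p).e) * Ev := by
      rw [Finset.sum_congr rfl fun p _ => hN3 p]
    _ = (Ev * Y * Co) * ((∑ p, (ρ p).e) * Ev) := by rw [← Finset.mul_sum, Matrix.mul_assoc]
    _ = Ev * Y := by rw [F.EEv, Matrix.mul_assoc, F.ce, Matrix.mul_one]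

theorem FrM.card_cls (Rp : Reps ρ) (p : P) :
    ((Finset.univ.filter fun x => cls x = p).card : ℂ) = trace (ρ p).e := by
  have h1 := F.up_tr Rp (1 : Matrix R R ℂ) p
  rw [Matrix.mul_one, F.ec, Finset.sum_mul, Finset.sum_eq_single p] at h1
  · rw [(ρ p).idem] at h1
    rw [h1]
    simp
  · intro q _ hq
    exact Rp.orth _ _ hq
  · intro h
    exact absurd (Finset.mem_univ _) h

end main

/-- **The maps.** -/
theorem maps (hTK : S_TK) (hDAT : S_DAT) (hLOC : S_LOC) (hLINE : S_LINE) : S_MAPS := by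
  classical
  intro g Z h d hd f hf hfi hgood n j U hU0 hUs hUl
  have M : Pol Z := ⟨h.symm, h.pos⟩
  obtain ⟨P, hP, ρ, Rp⟩ := M.exists_reps
  obtain ⟨hL, htr, hgal⟩ := hLOC h d hd hgood
  obtain ⟨b, u, w, Dt⟩ := hDAT h M hL Rp
  have Bs := exists_bas M Rp Dt
  obtain ⟨Om', hOm'⟩ : ∃ Om', Om' = Om g ℂ * ∑ p, u p := ⟨_, rfl⟩
  rw [← hOm'] at Bs
  obtain ⟨R, hR1, hR2, cls, inv, jj, X, hX, Ev, Co, F⟩ := exists_frM M Rp Dt.bb Bs
  have hirr : ∀ p, IrS (Pool.Agent.Y90.LZ Z) (rg (ρ p)) := fun p => irr_rg h (ρ p)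
  obtain ⟨e, he⟩ : ∃ e : P → ℤ, e = fun p => ((XS cls X p).card : ℤ) - (XS cls X (b p)).card :=
    ⟨_, rfl⟩
  have he0 : ∀ p, e p = (XS cls X p).card - (XS cls X (b p)).card := fun p => by rw [he]
  have hetr : ∀ p, e p = tr Z (rg (ρ p)) := by
    intro p
    rw [he0, tr_rg M, F.card, F.card]
    congr 2
    exact M.mu_eqv ⟨_, _, Dt.iso p⟩
  have he1 : ∀ p, e p = -1 ∨ e p = 0 ∨ e p = 1 := fun p => by
    rw [hetr]
    exact htr _ (hirr p)
  have hq : (∃ p, e p ≠ 0) →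
      ∃ q, e q ≠ 0 ∧ (Finset.univ.filter fun x => cls x = q).card = 1 := by
    intro _
    obtain ⟨W, hW, hW1⟩ := hLINE h d hd f hf hfi
    obtain ⟨φ, rfl⟩ := pr_of_irr h hW
    obtain ⟨q, hq⟩ := Rp.surj φ
    have h1 : ((Finset.univ.filter fun x => cls x = q).card : ℂ) = 1 := by
      rw [F.card_cls Rp]
      have h2 := Eqv.trace hq (X := 1) fun c _ => by rw [mul_one, one_mul]
      rw [one_mul, one_mul] at h2
      rw [h2, Pool.Agent.Y4.G.trace_idemM φ.idem]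
      have h3 : finrank ℂ (LinearMap.range (mulVecLin φ.e)) = 1 := hW1
      rw [h3, Nat.cast_one]
    have h2 : (Finset.univ.filter fun x => cls x = q).card = 1 := by exact_mod_cast h1
    refine ⟨q, ?_, h2⟩
    have h3 : trace (ρ q).e = 1 := by rw [← F.card_cls Rp, h2, Nat.cast_one]
    rw [M.trace_e] at h3
    have h4 : mu (ρ q) + mu (M.bar (ρ q)) = 1 := by exact_mod_cast h3
    rw [hetr, tr_rg M]
    omega
  -- stability under the matrices which kill the invariant tensors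
  obtain ⟨S, Si, H, -⟩ := M.herm
  have hLL : Pool.Agent.Y90.LZ Z = LA {DZ Z} := rfl
  have hUk : Stb (Tk (LA {DZ Z})) U := by
    refine Pool.Agent.N134.HW.t_STB (Om := Om g ℂ) (S := S) (Si := Si) (Om_transpose ℂ) (Om_sq ℂ)
      (fun Y hY => h.sp hY) H.SiS (fun Y hY => ?_) U hUs
    have h1 := H.adj Y (mem_LZ' hY)
    change _ ∈ Pool.Agent.Y90.LZ Z
    rw [← LZ_eq]
    exact h1
  -- the copies
  obtain ⟨I, hI, ε, α, β, r, hPl⟩ := plc_of M Rp
  obtain ⟨u0, hu0, hu00⟩ := Submodule.exists_mem_ne_zero_of_ne_bot hU0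
  have hαE : ∀ i, α i * (Ev * Co) = α i := by
    intro i
    rw [F.ec]
    nth_rewrite 1 [← hPl.ra i]
    rw [Matrix.mul_assoc, F.eE Rp, hPl.ra]
  have hsum : ∑ i, (α i * Ev) * (Co * β i) = 1 := by
    rw [← hPl.sum]
    refine Finset.sum_congr rfl fun i _ => ?_
    rw [← hPl.ab, Matrix.mul_assoc, ← Matrix.mul_assoc Ev, ← Matrix.mul_assoc, hαE]
  obtain ⟨t, ht⟩ := exists_pl_ne hsum hu00
  obtain ⟨A, hA⟩ : ∃ A : Fin (n + 2 * j) → Matrix (Fin g ⊕ Fin g) R ℂ,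
    A = fun k => α (t k) * Ev := ⟨_, rfl⟩
  rw [← hA] at ht
  have hcd : ∀ Y ∈ LA {DZ Z}, ∀ k, A k * (Co * Y * Ev) = Y * A k := by
    intro Y hY k
    rw [hA]
    change α (t k) * Ev * (Co * Y * Ev) = Y * (α (t k) * Ev)
    have h1 := (F.cd (Y := Y) fun p => (ρ p).mem Y (mem_LZ' hY)).1
    have h2 := hPl.ca (t k) Y (mem_LZ' hY)
    rw [Matrix.mul_assoc, ← h1, ← Matrix.mul_assoc, h2, Matrix.mul_assoc]
  have hUst : StG cls inv jj (Tl e) (U.map (pl A)) := by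
    rintro Y hY _ ⟨c, hc, rfl⟩
    obtain ⟨N, hN, hN1, hN2⟩ := F.ext_GR hTK h hL M Rp Dt hOm' hetr hY
    refine ⟨act N c, hUk N hN c hc, ?_⟩
    refine (act_pl (fun k => ?_) c).symm
    rw [hA]
    change α (t k) * Ev * Y = N * (α (t k) * Ev)
    rw [Matrix.mul_assoc, ← hN2, ← Matrix.mul_assoc, ← hN1 _ (hPl.ca (t k)), Matrix.mul_assoc]
  have hU'0 : U.map (pl A) ≠ ⊥ := by
    intro h0
    have h1 : pl A u0 ∈ U.map (pl A) := ⟨u0, hu0, rfl⟩
    rw [h0, Submodule.mem_bot] at h1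
    exact ht h1
  have hlev : ∀ c ∈ U.map (pl A), ∀ z, c z ≠ 0 → |∑ k, sX X (z k)| ≤ n := by
    rintro _ ⟨c, hc, rfl⟩ z hz
    by_contra hcon
    push Not at hcon
    apply hz
    rw [pl_apply]
    refine hUl c hc _ (fun k => sX X (z k)) (fun k => ?_) (fun k => ?_) hcon
    · unfold sX
      split_ifs
      · exact Or.inl rfl
      · exact Or.inr rfl
    · rw [hA]
      change DZ Z *ᵥ ((α (t k) * Ev) *ᵥ Pi.single (z k) 1) = _ • ((α (t k) * Ev) *ᵥ Pi.single (z k) 1)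
      have h2 := hPl.ca (t k) (DZ Z) D_mem_LZ
      rw [mulVec_mulVec, ← Matrix.mul_assoc, ← h2, Matrix.mul_assoc, F.D, ← Matrix.mul_assoc,
        ← mulVec_mulVec, ← mulVec_smul]
      congr 1
      funext x
      rw [mulVec_single_one, Pi.smul_apply, smul_eq_mul]
      change (diagonal fun z => (sX X z : ℂ)) x (z k) = _
      by_cases hx : x = z k
      · subst hx
        rw [Matrix.diagonal_apply_eq, Pi.single_eq_same, mul_one]
      · rw [Matrix.diagonal_apply_ne _ hx, Pi.single_eq_of_ne hx, mul_zero]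
  obtain ⟨κ', i1, i2, hcard, φ, hφ, c, ⟨v, hv, rfl⟩, hcφ⟩ :=
    core Pool.Agent.N42.GHC.t_HGT Pool.Agent.N661.GHC.t_VEC Pool.Agent.N42.GHC.t_DOM
      Pool.Agent.N76.GHC.t_SWAP Pool.Agent.N78.GHC.t_TOP Pool.Agent.N803.GHC.t_GRAPH
      Pool.Agent.N216.GHC.t_SHIFT F.fr Dt.bb e he0 he1 hq (U.map (pl A)) hUst hU'0 n hlev
  have hGR : ∀ Y ∈ LA {DZ Z}, Co * Y * Ev ∈ GR cls inv jj (Tl e) := fun Y hY =>
    F.mem_GR M Rp Bs hetr hirr hgal hY
  refine ⟨κ', i1, i2, hcard, ?_, (pl fun _ => Co).comp (φ.comp (pl A)), fun Y hY c => ?_, v, hv,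
    ?_⟩
  · -- the parity
    have hDD : Co * DZ Z * Ev = diagonal fun z => (sX X z : ℂ) := by
      rw [Matrix.mul_assoc, F.D, ← Matrix.mul_assoc, F.ce, Matrix.one_mul]
    have h1 := parity (X := X) (φ := φ) (fun c => by
      rw [← hDD]
      exact hφ _ (hGR _ (LA_self (Set.mem_singleton _))) c) hcφ
    rw [Fintype.card_fin] at h1
    rw [Nat.even_iff] at h1 ⊢
    omega
  · rw [LinearMap.comp_apply, LinearMap.comp_apply, LinearMap.comp_apply, LinearMap.comp_apply,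
      ← act_pl (hcd Y hY), hφ _ (hGR Y hY)]
    refine (act_pl (fun _ => ?_) _).symm
    exact (F.cd (Y := Y) fun p => (ρ p).mem Y (mem_LZ' hY)).2
  · intro h0
    apply hcφ
    rw [LinearMap.comp_apply, LinearMap.comp_apply] at h0
    have h1 := congrArg (pl fun _ => Ev) h0
    rw [pl_pl, map_zero, F.ce, pl_one] at h1
    exact h1

end

end Pool.Agent.N178.HW
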